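import Pool.Agent.WK4.Stmts
import Pool.Agent.WK2.Cst
import Pool.Agent.WK.De0

/-!
# MP_7d2497_an, squad WK4: row XCS, the construction of a bad set at a point
-/

set_option autoImplicit false

namespace Pool.Agent.WK4

open MeasureTheory Filter Topology Complex
open Pool.Agent.H78E Pool.Agent.WK Pool.Agent.WK2 Pool.Agent.WK3
open Pool.Agent.WKS

noncomputable section

namespace Xcs

variable {φ : ℝ → ℝ}

/-- Elements whose transform vanishes at `p`, and on `K` off a finite set. -/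
def Wp (φ : ℝ → ℝ) (K : Set ℝ) (p : ℝ) : Submodule ℂ Y where
  carrier := {f | chiW φ (p : ℂ) f = 0 ∧
    ∃ F : Finset ℝ, ∀ x ∈ K, x ∉ F → chiW φ (x : ℂ) f = 0}
  add_mem' := by
    classical
    rintro a b ⟨ha, F, hF⟩ ⟨hb, G, hG⟩
    refine ⟨by rw [map_add, ha, hb, add_zero], F ∪ G, fun x hx hx2 => ?_⟩
    rw [Finset.mem_union, not_or] at hx2
    rw [map_add, hF x hx hx2.1, hG x hx hx2.2, add_zero]
  zero_mem' := ⟨map_zero _, ∅, fun x _ _ => map_zero _⟩
  smul_mem' := by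
    rintro c a ⟨ha, F, hF⟩
    exact ⟨by rw [map_smul, ha, smul_zero], F, fun x hx hx2 => by
      rw [map_smul, hF x hx hx2, smul_zero]⟩

/-- The approximation lemma for elements of `Y`. -/
theorem xf6Y (h6 : Xf6Stmt) (hφ : IsWeight φ) {C0 : ℝ} {M : ℕ} (hP : Poly φ C0 M)
    (hL : ¬ Lin φ) (p : ℝ) (F0 : Finset ℝ) (f : Y) (hp : p ∉ F0) (h0 : chiW φ (p : ℂ) f = 0)
    (hF0 : ∀ x ∈ F0, chiW φ (x : ℂ) f = 0) (n ε : ℝ) (hn : 1 ≤ n) (hε : 0 < ε) :
    ∃ ρ : ℝ, 0 < ρ ∧ ∀ F' : Finset ℝ, (∀ x ∈ F', |x - p| ≤ ρ) →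
    Ineq φ ((insert p F' : Finset ℝ) : Set ℝ) n → ∀ y : ℝ, |y - p| ≤ ρ →
    ∃ f' : Y, (∀ x ∈ insert y (insert p (F0 ∪ F')), chiW φ (x : ℂ) f' = 0) ∧
      ‖f - f'‖ ≤ ε := by
  obtain ⟨g, hg1, hg2, _, hg3⟩ := ofE hφ f
  obtain ⟨ρ, hρ, h⟩ := h6 φ C0 M hφ hP hL p F0 g hp hg1 (by rw [hg3 _ (by simp), h0])
    (fun x hx => by rw [hg3 _ (by simp), hF0 x hx]) n ε hn hε
  refine ⟨ρ, hρ, fun F' hF' hI y hy => ?_⟩
  obtain ⟨g', hg'1, hg'2, hg'3⟩ := h F' hF' hI y hy
  obtain ⟨f', hf'1, _, hf'3⟩ := toE hφ hg'1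
  refine ⟨f', fun x hx => ?_, ?_⟩
  · rw [← hf'3 _ (by simp)]
    exact hg'2 x hx
  · rw [distE hφ hg2 hf'1]
    exact hg'3

theorem Ineq_single (hφ : IsWeight φ) (p : ℝ) {C : ℝ} (hC : φ 0 ≤ C) :
    Ineq φ (((insert p ∅ : Finset ℝ)) : Set ℝ) C := by
  intro F c A hF hA t _
  have hA0 := Cst.A_nonneg hφ hA
  have hsub : F ⊆ {p} := by
    intro x hx
    have := hF (Finset.mem_coe.mpr hx)
    simpa using this
  have hnorm : ∀ s : ℝ, ‖expR p s‖ = 1 := by
    intro s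
    unfold expR
    rw [Complex.norm_exp]
    simp
  have h0 := hA 0 le_rfl
  have hone := hφ.one_le t
  have hC0 : 0 ≤ C := (zero_le_one.trans (hφ.one_le 0)).trans hC
  rcases Finset.subset_singleton_iff.mp hsub with h | h
  · rw [h]
    unfold ES
    rw [Finset.sum_empty, norm_zero]
    exact mul_nonneg (mul_nonneg hC0 hA0) (zero_le_one.trans hone)
  · rw [h] at h0 ⊢
    unfold ES at h0 ⊢
    rw [Finset.sum_singleton, norm_mul, hnorm, mul_one] at h0 ⊢
    calc ‖c p‖ ≤ A * φ 0 := h0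
      _ ≤ A * C := mul_le_mul_of_nonneg_left hC hA0
      _ = C * A * 1 := by ring
      _ ≤ C * A * φ t := mul_le_mul_of_nonneg_left hone (mul_nonneg hC0 hA0)

/-- Minimal bad sets at `p`. -/
theorem bad_set (hφ : IsWeight φ) {L : Set ℝ} {p : ℝ} (h : ¬ NearI φ L p) {ρ : ℝ} (hρ : 0 < ρ)
    {C : ℝ} (hC : φ 0 ≤ C) :
    ∃ (F' : Finset ℝ) (y : ℝ), ((insert y F' : Finset ℝ) : Set ℝ) ⊆ L ∧ p ∉ insert y F' ∧
      (∀ x ∈ insert y F', |x - p| ≤ ρ) ∧ Ineq φ ((insert p F' : Finset ℝ) : Set ℝ) C ∧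
      ¬ Ineq φ ((insert p (insert y F') : Finset ℝ) : Set ℝ) C := by
  classical
  have hex : ∃ n : ℕ, ∃ F : Finset ℝ, F.card = n ∧ (F : Set ℝ) ⊆ L ∧ p ∉ F ∧
      (∀ x ∈ F, |x - p| ≤ ρ) ∧ ¬ Ineq φ ((insert p F : Finset ℝ) : Set ℝ) C := by
    have h1 : ¬ Ineq φ {x | x ∈ L ∧ |x - p| ≤ ρ} C := fun h2 => h ⟨ρ, C, hρ, h2⟩
    unfold Ineq at h1
    push Not at h1
    obtain ⟨F, c, A, hF, hA, t, ht, hlt⟩ := h1
    refine ⟨(F.erase p).card, F.erase p, rfl, ?_, Finset.notMem_erase p F, ?_, fun h2 => ?_⟩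
    · intro x hx
      exact (hF (Finset.mem_coe.mpr (Finset.mem_of_mem_erase (Finset.mem_coe.mp hx)))).1
    · intro x hx
      exact (hF (Finset.mem_coe.mpr (Finset.mem_of_mem_erase hx))).2
    · refine absurd (h2 F c A ?_ hA t ht) (not_le.mpr hlt)
      intro x hx
      rw [Finset.coe_insert]
      by_cases hxp : x = p
      · exact Or.inl hxp
      · exact Or.inr (Finset.mem_coe.mpr (Finset.mem_erase.mpr ⟨hxp, Finset.mem_coe.mp hx⟩))
  obtain ⟨F, hcard, hFL, hpF, hFR, hF⟩ := Nat.find_spec hex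
  have hne : F.Nonempty := by
    rw [Finset.nonempty_iff_ne_empty]
    rintro rfl
    exact hF (Ineq_single hφ p hC)
  obtain ⟨y, hy⟩ := hne
  refine ⟨F.erase y, y, ?_, ?_, ?_, ?_, ?_⟩
  · rw [Finset.insert_erase hy]
    exact hFL
  · rw [Finset.insert_erase hy]
    exact hpF
  · rw [Finset.insert_erase hy]
    exact hFR
  · by_contra hcon
    have h2 : (F.erase y).card < Nat.find hex := by
      rw [← hcard]
      exact Finset.card_erase_lt_of_mem hy
    refine Nat.find_min hex h2 ⟨F.erase y, rfl, ?_, ?_, ?_, hcon⟩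
    · intro x hx
      exact hFL (Finset.mem_coe.mpr (Finset.mem_of_mem_erase (Finset.mem_coe.mp hx)))
    · exact fun h3 => hpF (Finset.mem_of_mem_erase h3)
    · intro x hx
      exact hFR x (Finset.mem_of_mem_erase hx)
  · rw [Finset.insert_erase hy]
    exact hF

/-- States of the construction. -/
structure St (φ : ℝ → ℝ) (p : ℝ) where
  w : ℕ → Y
  G : ℕ → Finset ℝ
  hp : ∀ n : ℕ, p ∉ G n
  inv0 : ∀ n : ℕ, chiW φ (p : ℂ) (w n) = 0
  inv : ∀ n : ℕ, ∀ x ∈ G n, chiW φ (x : ℂ) (w n) = 0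

/-- One step of the construction. -/
theorem step (h6 : Xf6Stmt) (hφ : IsWeight φ) {C0 : ℝ} {M : ℕ} (hP : Poly φ C0 M)
    (hLin : ¬ Lin φ) {L : Set ℝ} {p : ℝ} (h : ¬ NearI φ L p) (N : ℕ)
    (s : St φ p) : ∃ (s' : St φ p) (F : Finset ℝ), (F : Set ℝ) ⊆ L ∧ p ∉ F ∧
      (∀ x ∈ F, |x - p| ≤ (1 / 2 : ℝ) ^ N) ∧
      ¬ Ineq φ ((insert p F : Finset ℝ) : Set ℝ) ((4 : ℝ) ^ N) ∧
      (∀ n : ℕ, n ≤ N → ‖s.w n - s'.w n‖ ≤ (1 / 2 : ℝ) ^ N ∧ F ⊆ s'.G n) ∧
      (∀ n : ℕ, s.G n ⊆ s'.G n) ∧ ∀ n : ℕ, N < n → s'.w n = s.w n := by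
  classical
  set C : ℝ := max ((4 : ℝ) ^ N) (φ 0) with hCdef
  have hC1 : 1 ≤ C := (hφ.one_le 0).trans (le_max_right _ _)
  have h1 : ∀ n : ℕ, ∃ ρ : ℝ, 0 < ρ ∧ ∀ F' : Finset ℝ, (∀ x ∈ F', |x - p| ≤ ρ) →
      Ineq φ ((insert p F' : Finset ℝ) : Set ℝ) C → ∀ y : ℝ, |y - p| ≤ ρ →
      ∃ f' : Y, (∀ x ∈ insert y (insert p (s.G n ∪ F')), chiW φ (x : ℂ) f' = 0) ∧
        ‖s.w n - f'‖ ≤ (1 / 2 : ℝ) ^ N := by
    intro n
    exact xf6Y h6 hφ hP hLin p (s.G n) (s.w n) (s.hp n) (s.inv0 n) (s.inv n) _ _ hC1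
      (by positivity)
  choose ρ hρ0 hρ2 using h1
  obtain ⟨B, hB0, hB⟩ : ∃ B : ℝ, 0 < B ∧ B ≤ (1 / 2 : ℝ) ^ N ∧ ∀ n : ℕ, n ≤ N → B ≤ ρ n := by
    have hfin : ((Finset.range (N + 1)).image ρ ∪ {(1 / 2 : ℝ) ^ N}).Nonempty :=
      ⟨(1 / 2 : ℝ) ^ N, by simp⟩
    refine ⟨((Finset.range (N + 1)).image ρ ∪ {(1 / 2 : ℝ) ^ N}).min' hfin, ?_, ?_, ?_⟩
    · rw [Finset.lt_min'_iff]
      intro y hy
      rw [Finset.mem_union, Finset.mem_image, Finset.mem_singleton] at hy
      rcases hy with ⟨n, _, rfl⟩ | rfl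
      · exact hρ0 n
      · positivity
    · exact Finset.min'_le _ _ (by simp)
    · intro n hn
      apply Finset.min'_le
      rw [Finset.mem_union]
      left
      exact Finset.mem_image_of_mem ρ (Finset.mem_range.mpr (by omega))
  obtain ⟨F', y, hL, hpF, hfar, hI, hnI⟩ := bad_set hφ h hB0 (C := C) (le_max_right _ _)
  have h2 : ∀ n : ℕ, n ≤ N → ∃ f' : Y,
      (∀ x ∈ insert y (insert p (s.G n ∪ F')), chiW φ (x : ℂ) f' = 0) ∧
        ‖s.w n - f'‖ ≤ (1 / 2 : ℝ) ^ N := by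
    intro n hn
    exact hρ2 n F' (fun x hx => (hfar x (Finset.mem_insert_of_mem hx)).trans (hB.2 n hn)) hI y
      ((hfar y (Finset.mem_insert_self _ _)).trans (hB.2 n hn))
  have h3 : ∀ n : ℕ, ∃ f' : Y, (n ≤ N →
      (∀ x ∈ insert y (insert p (s.G n ∪ F')), chiW φ (x : ℂ) f' = 0) ∧
        ‖s.w n - f'‖ ≤ (1 / 2 : ℝ) ^ N) := by
    intro n
    by_cases hn : n ≤ N
    · obtain ⟨f', hf'⟩ := h2 n hn
      exact ⟨f', fun _ => hf'⟩
    · exact ⟨0, fun h => absurd h hn⟩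
  choose f' hf' using h3
  have hpy : p ≠ y := fun h => hpF (h ▸ Finset.mem_insert_self _ _)
  have hpF' : p ∉ F' := fun h => hpF (Finset.mem_insert_of_mem h)
  refine ⟨⟨fun n => if n ≤ N then f' n else s.w n,
    fun n => if n ≤ N then insert y (s.G n ∪ F') else s.G n, ?_, ?_, ?_⟩, insert y F', hL, hpF,
    ?_, ?_, ?_, ?_, ?_⟩
  · intro n
    by_cases hn : n ≤ N
    · simp only [if_pos hn]
      rw [Finset.mem_insert, Finset.mem_union]
      rintro (h4 | h4 | h4)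
      · exact hpy h4
      · exact s.hp n h4
      · exact hpF' h4
    · simp only [if_neg hn]
      exact s.hp n
  · intro n
    by_cases hn : n ≤ N
    · simp only [if_pos hn]
      exact (hf' n hn).1 p (Finset.mem_insert_of_mem (Finset.mem_insert_self _ _))
    · simp only [if_neg hn]
      exact s.inv0 n
  · intro n x hx
    by_cases hn : n ≤ N
    · simp only [if_pos hn] at hx ⊢
      refine (hf' n hn).1 x ?_
      rw [Finset.mem_insert] at hx ⊢
      rcases hx with hx | hx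
      · exact Or.inl hx
      · exact Or.inr (Finset.mem_insert_of_mem hx)
    · simp only [if_neg hn] at hx ⊢
      exact s.inv n x hx
  · intro x hx
    exact (hfar x hx).trans hB.1
  · exact fun h4 => hnI (Cst.Ineq_mono_C hφ (le_max_left _ _) h4)
  · intro n hn
    simp only [if_pos hn]
    refine ⟨(hf' n hn).2, ?_⟩
    intro x hx
    rw [Finset.mem_insert] at hx ⊢
    rcases hx with hx | hx
    · exact Or.inl hx
    · exact Or.inr (Finset.mem_union_right _ hx)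
  · intro n x hx
    by_cases hn : n ≤ N
    · simp only [if_pos hn]
      exact Finset.mem_insert_of_mem (Finset.mem_union_left _ hx)
    · simp only [if_neg hn]
      exact hx
  · intro n hn
    simp only [if_neg (not_le.mpr hn)]

/-- The functions `RR p (q (n + 3/2))` as elements. -/
theorem exists_E (fac : FacStmt) (hφ : IsWeight φ) (p : ℝ) (n : ℕ) : ∃ r : Y,
    ((dv φ r : X) : ℝ → ℂ) =ᵐ[volume] (fun t => RR p (q ((n : ℝ) + 3 / 2)) t) ∧
      chiW φ (p : ℂ) r = 0 := by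
  obtain ⟨D, hD, hfac⟩ := fac φ hφ
  have hq : LP φ (q ((n : ℝ) + 3 / 2)) :=
    (H17.nc_q (by linarith [Nat.cast_nonneg (α := ℝ) n])).lp hφ
  obtain ⟨h1, _, h3, _⟩ := hfac p _ hq
  obtain ⟨r, hr1, _, hr3⟩ := toE hφ h1
  refine ⟨r, hr1, ?_⟩
  rw [← hr3 _ (by simp), h3 _ (by simp), sub_self, zero_div, zero_mul]

/-- Combinations of these elements. -/
theorem comb_ae (hφ : IsWeight φ) {E : ℕ → Y} {e : ℕ → ℝ → ℂ}
    (hE : ∀ n : ℕ, ((dv φ (E n) : X) : ℝ → ℂ) =ᵐ[volume] e n) (c : ℕ → ℂ) (s : Finset ℕ) :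
    ((dv φ (∑ m ∈ s, c m • E m) : X) : ℝ → ℂ) =ᵐ[volume] fun t => ∑ m ∈ s, c m * e m t := by
  classical
  induction s using Finset.induction_on with
  | empty =>
    simp only [Finset.sum_empty, map_zero]
    exact Lp.coeFn_zero ℂ 1 volume
  | insert i s hi ih =>
    rw [Finset.sum_insert hi, map_add, map_smul, Submodule.coe_add, Submodule.coe_smul]
    filter_upwards [Lp.coeFn_add (c i • (dv φ (E i) : X))
      ((dv φ (∑ m ∈ s, c m • E m) : Y) : X),
      Lp.coeFn_smul (c i) (dv φ (E i) : X), ih, hE i] with t h1 h2 h3 h4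
    rw [h1, Pi.add_apply, h2, Pi.smul_apply, h3, Finset.sum_insert hi, smul_eq_mul, h4]

end Xcs

open Xcs in
theorem xcs (h6 : Xf6Stmt) (de0 : De0Stmt) (fac : FacStmt) : XcsStmt := by
  intro φ C0 M hφ hP hLin L p hpL hbadp
  classical
  choose nxt FF hFL hFp hnear hbad hstep hG hkeep using fun (N : ℕ) (s : St φ p) =>
    step h6 hφ hP hLin hbadp N s
  choose E hE hE0 using exists_E fac hφ p
  let g : ℕ → Y := fun n => E (Nat.unpair n).1
  let s0 : St φ p := ⟨g, fun _ => ∅, fun n => Finset.notMem_empty p, fun n => hE0 _,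
    fun n x hx => absurd hx (Finset.notMem_empty x)⟩
  let seq : ℕ → St φ p := fun N => Nat.rec s0 (fun N s => nxt N s) N
  have hseq : ∀ N : ℕ, seq (N + 1) = nxt N (seq N) := fun N => rfl
  let F : ℕ → Finset ℝ := fun N => FF N (seq N)
  have hconst : ∀ n N : ℕ, N ≤ n → (seq N).w n = g n := by
    intro n N
    induction N with
    | zero => intro _; rfl
    | succ N ih =>
      intro hN
      rw [hseq, hkeep N (seq N) n (by omega)]
      exact ih (by omega)
  have hdist : ∀ n N : ℕ, dist ((seq N).w n) ((seq (N + 1)).w n) ≤ 1 * (1 / 2 : ℝ) ^ N := by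
    intro n N
    rw [one_mul]
    by_cases hn : n ≤ N
    · rw [dist_eq_norm, hseq]
      exact (hstep N (seq N) n hn).1
    · push Not at hn
      rw [hseq, hkeep N (seq N) n hn, dist_self]
      positivity
  have hlim : ∀ n : ℕ, ∃ w : Y, Tendsto (fun N => (seq N).w n) atTop (𝓝 w) := fun n =>
    cauchySeq_tendsto_of_complete
      (cauchySeq_of_le_geometric (1 / 2 : ℝ) 1 (by norm_num) (hdist n))
  choose w hw using hlim
  have hwg : ∀ n : ℕ, dist (g n) (w n) ≤ 2 * (1 / 2 : ℝ) ^ n := by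
    intro n
    have h1 := dist_le_of_le_geometric_of_tendsto (1 / 2 : ℝ) 1 (by norm_num) (hdist n) (hw n) n
    rw [hconst n n le_rfl] at h1
    refine h1.trans (le_of_eq ?_)
    norm_num
    ring
  have hGmono : ∀ n N N' : ℕ, N ≤ N' → (seq N).G n ⊆ (seq N').G n := by
    intro n N N' hNN
    induction N' with
    | zero =>
      have : N = 0 := by omega
      rw [this]
    | succ N' ih =>
      by_cases h : N ≤ N'
      · refine (ih h).trans ?_
        rw [hseq]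
        exact hG N' (seq N') n
      · have : N = N' + 1 := by omega
        rw [this]
  have hzero : ∀ n j : ℕ, n ≤ j → ∀ x ∈ F j, chiW φ (x : ℂ) (w n) = 0 := by
    intro n j hnj x hx
    have h1 : Tendsto (fun N => chiW φ (x : ℂ) ((seq N).w n)) atTop (𝓝 (chiW φ (x : ℂ) (w n))) :=
      ((chiW φ (x : ℂ)).continuous.tendsto _).comp (hw n)
    have h2 : Tendsto (fun N => chiW φ (x : ℂ) ((seq N).w n)) atTop (𝓝 0) := by
      refine tendsto_const_nhds.congr' ?_
      filter_upwards [eventually_ge_atTop (j + 1)] with N hN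
      symm
      apply (seq N).inv n
      apply hGmono n (j + 1) N hN
      rw [hseq]
      exact (hstep j (seq j) n hnj).2 hx
    exact tendsto_nhds_unique h1 h2
  have hzerop : ∀ n : ℕ, chiW φ (p : ℂ) (w n) = 0 := by
    intro n
    have h1 : Tendsto (fun N => chiW φ (p : ℂ) ((seq N).w n)) atTop (𝓝 (chiW φ (p : ℂ) (w n))) :=
      ((chiW φ (p : ℂ)).continuous.tendsto _).comp (hw n)
    have h2 : Tendsto (fun N => chiW φ (p : ℂ) ((seq N).w n)) atTop (𝓝 0) := by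
      refine tendsto_const_nhds.congr fun N => ?_
      exact ((seq N).inv0 n).symm
    exact tendsto_nhds_unique h1 h2
  let K : Set ℝ := insert p {x | ∃ N : ℕ, x ∈ F N}
  have hFK : ∀ N : ℕ, ((insert p (F N) : Finset ℝ) : Set ℝ) ⊆ K := by
    intro N x hx
    rw [Finset.coe_insert] at hx
    rcases hx with hx | hx
    · exact Or.inl hx
    · exact Or.inr ⟨N, hx⟩
  refine ⟨K, ?_, Or.inl rfl, ?_, ?_, ?_, ?_⟩
  · rintro x (rfl | ⟨N, hx⟩)
    · exact hpL
    · exact hFL N (seq N) hx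
  · rw [← isOpen_compl_iff, isOpen_iff_mem_nhds]
    intro y hy
    have hyp : y ≠ p := fun h => hy (Or.inl h)
    have hd : 0 < |y - p| / 2 := by
      have := abs_pos.mpr (sub_ne_zero.mpr hyp)
      positivity
    obtain ⟨m, hm⟩ := exists_pow_lt_of_lt_one hd (show (1 / 2 : ℝ) < 1 by norm_num)
    have hS : y ∉ (((Finset.range m).biUnion F : Finset ℝ) : Set ℝ) := by
      intro h1
      rw [Finset.mem_coe, Finset.mem_biUnion] at h1
      obtain ⟨N, _, hN⟩ := h1
      exact hy (Or.inr ⟨N, hN⟩)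
    have hSn : ((((Finset.range m).biUnion F : Finset ℝ) : Set ℝ))ᶜ ∈ 𝓝 y :=
      (Finset.finite_toSet _).isClosed.isOpen_compl.mem_nhds hS
    filter_upwards [Metric.ball_mem_nhds y hd, hSn] with z hz hz2
    rintro (hzp | ⟨N, hN⟩)
    · rw [hzp, Metric.mem_ball, dist_comm, Real.dist_eq] at hz
      linarith [abs_nonneg (y - p)]
    · by_cases hNm : N < m
      · apply hz2
        rw [Finset.mem_coe, Finset.mem_biUnion]
        exact ⟨N, Finset.mem_range.mpr hNm, hN⟩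
      · have h1 := hnear N (seq N) z hN
        have h2 : (1 / 2 : ℝ) ^ N ≤ (1 / 2 : ℝ) ^ m :=
          pow_le_pow_of_le_one (by norm_num) (by norm_num) (not_lt.mp hNm)
        rw [Metric.mem_ball, Real.dist_eq] at hz
        have h3 : |y - p| ≤ |z - y| + |z - p| := by
          have := abs_sub_le y z p
          rwa [abs_sub_comm y z] at this
        linarith
  · refine Set.Countable.insert _ ?_
    have : {x | ∃ N : ℕ, x ∈ F N} = ⋃ N : ℕ, ((F N : Finset ℝ) : Set ℝ) := by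
      ext x
      simp
    rw [this]
    exact Set.countable_iUnion fun N => (Finset.finite_toSet _).countable
  · intro f hf hfp ε hε
    obtain ⟨f0, hf01, _, hf03⟩ := toE hφ hf
    -- the elements `E m` are limits
    have hEm : ∀ m : ℕ, E m ∈ (Wp φ K p).topologicalClosure := by
      intro m
      have h1 : E m ∈ closure ((Wp φ K p : Submodule ℂ Y) : Set Y) := by
        rw [Metric.mem_closure_iff]
        intro ε hε
        obtain ⟨k, hk⟩ : ∃ k : ℕ, 2 * (1 / 2 : ℝ) ^ k < ε := by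
          obtain ⟨k, hk⟩ := exists_pow_lt_of_lt_one (show (0 : ℝ) < ε / 2 by positivity)
            (show (1 / 2 : ℝ) < 1 by norm_num)
          exact ⟨k, by linarith⟩
        refine ⟨w (Nat.pair m k), ⟨hzerop _, (Finset.range (Nat.pair m k)).biUnion F, ?_⟩, ?_⟩
        · rintro x (rfl | ⟨N, hx⟩) hx2
          · exact hzerop _
          · apply hzero _ N _ x hx
            by_contra hN
            apply hx2
            rw [Finset.mem_biUnion]
            exact ⟨N, Finset.mem_range.mpr (not_le.mp hN), hx⟩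
        · have h2 := hwg (Nat.pair m k)
          have h3 : g (Nat.pair m k) = E m := by
            change E (Nat.unpair (Nat.pair m k)).1 = E m
            rw [Nat.unpair_pair]
          rw [h3] at h2
          refine lt_of_le_of_lt (h2.trans ?_) hk
          have h4 : k ≤ Nat.pair m k := Nat.right_le_pair m k
          have h5 : (1 / 2 : ℝ) ^ (Nat.pair m k) ≤ (1 / 2 : ℝ) ^ k :=
            pow_le_pow_of_le_one (by norm_num) (by norm_num) h4
          linarith
      exact h1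
    have hcl : f0 ∈ closure ((Wp φ K p : Submodule ℂ Y) : Set Y) := by
      have h1 : f0 ∈ closure (((Wp φ K p).topologicalClosure : Submodule ℂ Y) : Set Y) := by
        rw [Metric.mem_closure_iff]
        intro ε hε
        obtain ⟨N, c, hc⟩ := de0 φ hφ p f hf (hfp p rfl) ε hε
        refine ⟨∑ m ∈ Finset.range N, c m • E m, ?_, ?_⟩
        · exact Submodule.sum_mem _ fun m _ => Submodule.smul_mem _ _ (hEm m)
        · rw [dist_eq_norm, distE hφ hf01 (comb_ae hφ hE c (Finset.range N))]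
          exact hc
      have h2 := (Wp φ K p).isClosed_topologicalClosure
      rw [h2.closure_eq] at h1
      exact h1
    obtain ⟨F', hF', hd⟩ := Metric.mem_closure_iff.mp hcl ε hε
    obtain ⟨f', hf1, hf2, _, hf3⟩ := ofE hφ F'
    obtain ⟨hF'p, S, hS⟩ := hF'
    refine ⟨f', hf1, ⟨S.filter (fun x => x ∈ K ∧ x ≠ p), ?_, ?_⟩, ?_⟩
    · intro x hx
      rw [Finset.mem_filter] at hx
      exact ⟨hx.2.1, fun h => hx.2.2 h⟩
    · intro x hx hx2
      rw [hf3 _ (by simp)]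
      by_cases hxp : x = p
      · rw [hxp]
        exact hF'p
      · apply hS x hx
        intro h
        exact hx2 (Finset.mem_filter.mpr ⟨h, hx, hxp⟩)
    · rw [← distE hφ hf01 hf2, ← dist_eq_norm]
      exact hd
  · intro C hC
    obtain ⟨N, hN⟩ := pow_unbounded_of_one_lt C (show (1 : ℝ) < 4 by norm_num)
    exact hbad N (seq N) (Cst.Ineq_mono_C hφ hN.le (Cst.Ineq_mono (hFK N) hC))

end

end Pool.Agent.WK4
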