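import Pool.Agent.WK3.Defs

/-!
# MP_7d2497_an, squad WK4: the explicit criterion for polynomially bounded weights

THEOREM X. Let `φ` be a weight with `φ t ≤ C (1+|t|)^M`, on `[0,∞)` quasi-concave or of at least
linear growth. Then `L` has (E) iff `FarI φ L` and, unless `Lin φ`, every closed subset of `L` is
countable and `NearI φ L p` for all `p ∈ L`.

All statements are on the level of functions (`LP`, `FT`, `cv`, `ka`, `RR`, `ES`, `Ineq` of WK);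
`m_p` is the set of the `f ∈ LP` with `FT f p = 0`, `‖f‖` means `∫ φ |f|`.
-/

set_option autoImplicit false

namespace Pool.Agent.WK4

open MeasureTheory Filter Topology Complex
open Pool.Agent.H78E Pool.Agent.WK Pool.Agent.WK2 Pool.Agent.WK3

noncomputable section

/-- Polynomially bounded. -/
def Poly (φ : ℝ → ℝ) (C0 : ℝ) (M : ℕ) : Prop := ∀ t : ℝ, φ t ≤ C0 * (1 + |t|) ^ M

/-- The restriction inequality near a point. -/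
def NearI (φ : ℝ → ℝ) (L : Set ℝ) (p : ℝ) : Prop :=
  ∃ ρ C : ℝ, 0 < ρ ∧ Ineq φ {x | x ∈ L ∧ |x - p| ≤ ρ} C

/-! ### Local necessity -/

/-- XBE. Weighted Bernstein inequality.

Proof. Let `b : ℝ → ℂ` be a Schwartz function with `∫ b(s) exp(-isξ) ds = ξ^m` for `|ξ| ≤ 1` (the
inverse Fourier transform of a smooth function of compact support, `χ(ξ) ξ^m`, `χ = 1` on
`[-1,1]`; compare `WK2/Reg.lean`). For `|x - p| ≤ ρ`: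
`(x-p)^m = ρ^m ∫ b(s) exp(-is(x-p)/ρ) ds`, so
`ES S (c_x (x-p)^m) t = ρ^m ∫ b(s) exp(isp/ρ) ES S c (t + s/ρ) ds`, of absolute value at most
`ρ^m B ∫ |b(s)| φ(t + s/ρ) ds ≤ ρ^m B φ(t) C0 ∫ |b(s)| (1+|s|/ρ)^M ds ≤ C ρ^(m-M) B φ(t)`,
`C = C0 ∫ |b(s)| (1+|s|)^M ds`, for `ρ ≤ 1`. -/
def XbeStmt : Prop := ∀ (φ : ℝ → ℝ) (C0 : ℝ) (M : ℕ), IsWeight φ → Poly φ C0 M → ∀ m : ℕ,
  ∃ C : ℝ, 0 ≤ C ∧ ∀ (p ρ : ℝ) (S : Finset ℝ) (c : ℝ → ℂ) (B : ℝ), 0 < ρ → ρ ≤ 1 →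
    (∀ x ∈ S, |x - p| ≤ ρ) → (∀ t : ℝ, ‖ES S c t‖ ≤ B * φ t) →
    ∀ t : ℝ, ρ ^ M * ‖ES S (fun x => c x * (((x - p : ℝ)) : ℂ) ^ m) t‖ ≤ C * ρ ^ m * B * φ t

/-- XRR. Functions with a zero of high order are dense (uses AV, DE0, FAC, LEW, CNV of WK).

Proof. `R = RR p`, bounded, `R (LP)` is dense in `m_p` by DE0 (combinations of `RR p (q (n+3/2))`).
(1) `R (m_p)` is dense in `m_p`: enough to approximate `R v`, `v ∈ LP`. As `¬ Lin φ`, there is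
`L > 0` with `(1 + φ L)/L` small (`t/φ(t)` is unbounded, and `1 ≤ φ`), so by AV (`x0 = y = p`)
`‖R (cv v (ka L p))‖ ≤ D (1 + φ L)/L ‖v‖` is small, and `v - cv v (ka L p) ∈ m_p`
(`FT (cv v (ka L p)) p = FT v p`). (2) By induction `R^m (LP)` is dense in `m_p`, `m ≥ 1`:
`R^(m+1) (LP) = R (R^m (LP))` is dense in `R (m_p)`. (3) `FT (R v) x = (x-p) / (x-p-i) FT v x =
(x-p) · i · FT (cv v (kx p)) x`, as `FT (kx p) x = 1/(1+i(x-p))`. So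
`FT (R^m v) x = (x-p)^m FT F x` with `F = i^m cv (… cv v (kx p) …) (kx p)`. For `m = 0`: `g = F = f`. -/
def XrrStmt : Prop := ∀ φ : ℝ → ℝ, IsWeight φ → ¬ Lin φ → ∀ (m : ℕ) (p : ℝ) (f : ℝ → ℂ),
  LP φ f → FT f (p : ℂ) = 0 → ∀ ε : ℝ, 0 < ε → ∃ g F : ℝ → ℂ, LP φ g ∧ LP φ F ∧
    (∀ x : ℝ, FT g (x : ℂ) = (((x - p : ℝ)) : ℂ) ^ m * FT F (x : ℂ)) ∧
    ∫ t : ℝ, φ t * ‖f t - g t‖ < ε

/-- XLC. Exponential sums with frequencies near `p` are small functionals on `m_p`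
(uses XBE, XRR).

Proof. `g, F` from XRR with `m = M + 1` and `ε/2`. `∑ c_x FT f x = ∫ f P`, `P = ES S c`
(`pair_ES` of the kit), `|∫ (f-g) P| ≤ ε/2 B`; `∫ g P = ∑ c_x (x-p)^m FT F x = ∫ F P_m`,
`|P_m| ≤ C ρ B φ` by XBE, so `|∫ g P| ≤ C ρ B ‖F‖ ≤ ε/2 B` for small `ρ`. (`B ≥ 0` as
`0 ≤ ‖ES S c 0‖ ≤ B φ 0`.) -/
def XlcStmt : Prop := ∀ (φ : ℝ → ℝ) (C0 : ℝ) (M : ℕ), IsWeight φ → Poly φ C0 M → ¬ Lin φ →
  ∀ (p : ℝ) (f : ℝ → ℂ), LP φ f → FT f (p : ℂ) = 0 → ∀ ε : ℝ, 0 < ε →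
  ∃ ρ : ℝ, 0 < ρ ∧ ∀ (S : Finset ℝ) (c : ℝ → ℂ) (B : ℝ), (∀ x ∈ S, |x - p| ≤ ρ) →
    (∀ t : ℝ, ‖ES S c t‖ ≤ B * φ t) → ‖∑ x ∈ S, c x * FT f (x : ℂ)‖ ≤ ε * B

/-- XDU. Duality for finite sets on the level of functions (from DUA of WK2 with `toE`, `ofE` of
WK2/Kit), and separating functions (from SEP of WK2, or FAC). -/
def XduStmt : Prop := ∀ φ : ℝ → ℝ, IsWeight φ →
  (∃ S0 : ℝ, 1 ≤ S0 ∧ ∀ (S : Finset ℝ) (f : ℝ → ℂ) (δ : ℝ), LP φ f →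
    (∀ c : ℝ → ℂ, (∀ t : ℝ, 0 ≤ t → ‖ES S c t‖ ≤ S0 * φ t) →
      ‖∑ x ∈ S, c x * FT f (x : ℂ)‖ ≤ δ) →
    ∀ η : ℝ, 0 < η → ∃ f1 : ℝ → ℂ, LP φ f1 ∧ (∀ x ∈ S, FT f1 (x : ℂ) = 0) ∧
      ∫ t : ℝ, φ t * ‖f t - f1 t‖ ≤ δ + η) ∧
  ∀ (F : Finset ℝ) (x : ℝ), ∃ a : ℝ → ℂ, LP φ a ∧ FT a (x : ℂ) = 1 ∧
    ∀ y ∈ F, y ≠ x → FT a (y : ℂ) = 0

/-- XF5. Separation of a finite set and a set near `p` (uses XLC, XDU).

Proof as F5 of WK2. `a_x`, `x ∈ F0`, dual to `F0 ∪ {p}` (XDU), so `FT a_x p = 0`;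
`m = ∑_(F0) ‖a_x‖`, `k = card F0`; XLC for all `a_x` with `ε`, `k ε n ≤ 1/2`; `ρ` also smaller than
`|x - p|`, `x ∈ F0`. Let `P = P0 + P'`, `P0 = ES F0 c`, `P' = ES (insert p F') c`,
`|P| ≤ A φ` for `t ≥ 0`, `s = ∑_(F0) |c x|`, so `|P0| ≤ s φ`, `|P'| ≤ (A+s) φ` for `t ≥ 0`, so
`|P'| ≤ n (A+s) φ` for all `t`. For `x ∈ F0`: `c x = ∫ a_x P - ∫ a_x P'`, and
`|∫ a_x P'| ≤ ε n (A+s)` by XLC (frequencies in `[p-ρ,p+ρ]`), so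
`|c x| ≤ ‖a_x‖ A + ε n (A+s)`, `s ≤ (2m+1) A`, `n' = n (2m+2)`. -/
def Xf5Stmt : Prop := ∀ (φ : ℝ → ℝ) (C0 : ℝ) (M : ℕ), IsWeight φ → Poly φ C0 M → ¬ Lin φ →
  ∀ (p : ℝ) (F0 : Finset ℝ) (n : ℝ), p ∉ F0 → 1 ≤ n →
  ∃ ρ n' : ℝ, 0 < ρ ∧ 0 < n' ∧ ∀ F' : Finset ℝ, (∀ x ∈ F', |x - p| ≤ ρ) →
    Ineq φ ((insert p F' : Finset ℝ) : Set ℝ) n →
    Disjoint F0 (insert p F') ∧ ∀ (c : ℝ → ℂ) (A : ℝ),
      (∀ t : ℝ, 0 ≤ t → ‖ES (F0 ∪ insert p F') c t‖ ≤ A * φ t) →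
      ∀ t : ℝ, ‖ES (insert p F') c t‖ ≤ n' * A * φ t

/-- XF6. Approximation (uses XLC, XF5, XDU, AV, DE0, FAC, CNV, LEW).

Proof. (0) There is `v ∈ LP`, `FT v x = 0` on `F0`, with `‖f - R v‖ ≤ ε/4`, `R = RR p`: by DE0,
`‖f - R w‖ ≤ θ` for some `w ∈ LP`; for `x ∈ F0`, `FT f x = 0`, so
`|FT w x| = |x-p-i|/|x-p| |FT (R w) x| ≤ C θ`; `v = w - ∑_(F0) FT w x • a_x` (`a_x` dual to `F0`),
`θ` small. (1) By AV there are `L > 0` (with `(1+φ L)/L` small, `¬ Lin φ`) and `S ≥ φ` on `[0,L]`,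
`S ≥ 1`, and `ρ1 > 0` with `‖R (cv v (ka L y))‖ ≤ ε/4` for `|y - p| ≤ ρ1`. (2) `ρ2, n'` from XF5;
`S0` from XDU; `ρ3` from XLC for `R v` with `ε' = ε / (8 n' S0 (1+S))`. Let `F'` and `y` be as in
the statement, `ρ = min`. XDU for `R v` and `F0 ∪ insert p F'`: if `|ES (F0 ∪ insert p F') c| ≤
S0 φ` for `t ≥ 0` then `P' = ES (insert p F') c` is at most `n' S0 φ`, and `FT (R v) x = 0` on
`F0`, so the sum is at most `ε' n' S0` by XLC. So there is `f1` with transform `0` on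
`F0 ∪ insert p F'` and `‖R v - f1‖ ≤ 2 ε' n' S0 = ε / (4 (1+S))`. (3) `f' = f1 - cv f1 (ka L y)`:
transform `0` there and at `y` (AV), and
`‖cv f1 (ka L y)‖ ≤ ‖cv (f1 - R v) (ka L y)‖ + ‖cv (R v) (ka L y)‖ ≤ S ‖f1 - R v‖ + ε/4`
(`‖ka L y‖ ≤ S`; `cv (R v) (ka L y) = R (cv v (ka L y))` a.e.: both in LP with the same transform,
or by associativity and commutativity of the convolution). -/
def Xf6Stmt : Prop := ∀ (φ : ℝ → ℝ) (C0 : ℝ) (M : ℕ), IsWeight φ → Poly φ C0 M → ¬ Lin φ →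
  ∀ (p : ℝ) (F0 : Finset ℝ) (f : ℝ → ℂ), p ∉ F0 → LP φ f → FT f (p : ℂ) = 0 →
  (∀ x ∈ F0, FT f (x : ℂ) = 0) → ∀ n ε : ℝ, 1 ≤ n → 0 < ε →
  ∃ ρ : ℝ, 0 < ρ ∧ ∀ F' : Finset ℝ, (∀ x ∈ F', |x - p| ≤ ρ) →
    Ineq φ ((insert p F' : Finset ℝ) : Set ℝ) n → ∀ y : ℝ, |y - p| ≤ ρ →
    ∃ f' : ℝ → ℂ, LP φ f' ∧ (∀ x ∈ insert y (insert p (F0 ∪ F')), FT f' (x : ℂ) = 0) ∧
      ∫ t : ℝ, φ t * ‖f t - f' t‖ ≤ ε

/-- XCS. Construction of a bad set at `p` (uses XF6, DE0, FAC). As CST of WK2.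

Proof. (1) `Ineq φ {p} C` for `C ≥ φ 0`. For all `ρ > 0`, `C ≥ φ 0` there is a finite
`F ⊆ L ∩ [p-ρ,p+ρ]`, `p ∉ F`, with `¬ Ineq φ (insert p F) C` (`¬ NearI`, monotony in the set); take
one of minimal cardinality; it is not empty, so `F = insert y F'`, `y ∉ F'`, and
`Ineq φ (insert p F') C`. (2) STEP: given `N`, `w_n ∈ LP` and finite sets `G_n ∌ p` with
`FT w_n = 0` on `insert p G_n` (`n ≤ N`), there are a finite `F ⊆ L`, `p ∉ F`,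
`|x - p| ≤ 2^(-N)` on `F`, `¬ Ineq φ (insert p F) (4^N)` (for `N` with `4^N ≥ φ 0`), and
`w'_n ∈ LP` with `FT w'_n = 0` on `insert p (G_n ∪ F)`, `‖w_n - w'_n‖ ≤ 2^(-N)`: XF6 for all
`n ≤ N`, then (1). (3) Let `g_n` be a sequence in which every `RR p (q (m+3/2))` occurs infinitely
often. Recursively `w_(n,N)`, `G_(n,N)`, `F_N`: `w_(n,n) = g_n`, `G_(n,n) = ∅`, STEP; the limits
`w_n` (completeness of LP) have `‖w_n - g_n‖ ≤ 2^(1-n)` and `FT w_n = 0` at `p` and on `F_j`,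
`j ≥ n`. `K = insert p (⋃ F_N)` is closed and countable, `¬ Ineq φ K C` for all `C`. `Dns φ K {p}`:
DE0 and the `w_n`. -/
def XcsStmt : Prop := ∀ (φ : ℝ → ℝ) (C0 : ℝ) (M : ℕ), IsWeight φ → Poly φ C0 M → ¬ Lin φ →
  ∀ (L : Set ℝ) (p : ℝ), p ∈ L → ¬ NearI φ L p →
  ∃ K : Set ℝ, K ⊆ L ∧ p ∈ K ∧ IsClosed K ∧ K.Countable ∧ Dns φ K {p} ∧ ∀ C : ℝ, ¬ Ineq φ K C

/-- XNE. Local necessity: XCS, NIC with `Z = {p}`, ASUR, OPN of WK. -/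
def XneStmt : Prop := ∀ (φ : ℝ → ℝ) (C0 : ℝ) (M : ℕ), IsWeight φ → Poly φ C0 M → ¬ Lin φ →
  ∀ L : Set ℝ, PropertyE φ L → ∀ p ∈ L, NearI φ L p

/-- XRG. Polynomially bounded weights are regular: `b` as in WK2/Reg (a Schwartz function), radial
majorant `M u = C0 (1+|u|)^M`. And the lower limit of `log φ(-t) / √t` is zero. -/
def XrgStmt : Prop := ∀ (φ : ℝ → ℝ) (C0 : ℝ) (M : ℕ), IsWeight φ → Poly φ C0 M →
  Reg φ ∧ ∀ c : ℝ, 0 < c → ∀ T : ℝ, ∃ t : ℝ, T ≤ t ∧ Real.log (φ (-t)) < c * Real.sqrt t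

/-! ### Sufficiency -/

/-- XPR. Clopen pieces of a real spectrum.

Proof. As `exists_idempotent`, `ch_idempotent` in `Helper67_WKS/Res`, but for a circle which does
not meet the hull instead of an isolated point. `I = annW l`, `l` the functional of `g`, hull
`= rc K` (`specPos_eqW`). The resolvent vector `q z` in the quotient (lift of `exp(izt)` for
`Im z > 0`) is analytic off the hull, and `chi_x (q z) = 1/(i(x - z))` for `x` in the hull (true for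
`Im z > 0`, identity theorem, or from the resolvent formula). Let `f` be a lift of
`-(2π)^(-1) ∮ q z dz` over the circle with diameter `[a,b]`: `chi_x f = 1` for `x ∈ K`,
`a < x < b`, and `0` for `x ∈ K` outside `[a,b]`. -/
def XprStmt : Prop := ∀ φ : ℝ → ℝ, IsWeight φ → ∀ (g : ℝ → ℂ) (K : Set ℝ), LInfPos φ g →
  SpecPos φ g = rc K → ∀ a b : ℝ, a < b → a ∉ K → b ∉ K →
  ∃ f : ℝ → ℂ, LP φ f ∧ (∀ x ∈ K, a < x → x < b → FT f (x : ℂ) = 1) ∧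
    ∀ x ∈ K, (x < a ∨ b < x) → FT f (x : ℂ) = 0

/-- XIN. Local inequalities give the inequality (uses XPR, SPC, CNV, FAC-free).

Proof. `Q(s)`: there are `a ∈ LP` and `C` such that `FT a x = 0 ∨ FT a x = 1` on `K`, `FT a x = 1`
on `K ∩ s`, and `Ineq φ {x ∈ K | FT a x = 1} C`. `IsCompact.induction_on` for the compact set
`K ∩ [-R,R]`: empty set `a = 0`; monotone; local: for `p ∈ K` take `ρ` from `NearI`, and
`a' , b' ∉ K` (`K` is countable) with `p-ρ < a' < p < b' < p+ρ`, XPR, `s = (a',b')`. Union: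
`a + b - cv a b` has the transform `1 - (1-α)(1-β)`, so the new set is `U ∪ V`. `Ineq` for it: for
`P = ES F c`, `F ⊆ U ∪ V`, `|P| ≤ A φ` on `t ≥ 0`, the sum `P1 = ES F (c_x FT a x)`, which is
`∫ a(s) P(t+s) ds` (`pair_ES`), has `|P1(t)| ≤ ‖a‖ A φ(t)` for `t ≥ 0` and frequencies (with
nonzero coefficients: restrict `F`) in `U`; `P - P1` has frequencies in `V` and
`|P - P1| ≤ (1+‖a‖) A φ`. So `Ineq` with `C_U ‖a‖ + C_V (1+‖a‖)`. Finally the same argument for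
`U = {FT a = 1} ⊇ K ∩ [-R,R]` and `V = {x ∈ K, R ≤ |x|}`. -/
def XinStmt : Prop := ∀ φ : ℝ → ℝ, IsWeight φ → ∀ (g : ℝ → ℂ) (K : Set ℝ), LInfPos φ g →
  SpecPos φ g = rc K → K.Countable → (∀ p ∈ K, NearI φ K p) → FarI φ K → ∃ C : ℝ, Ineq φ K C

/-- XEX. The extension from the inequality (helper7: rows DIT, NSP, ISU, SYC, INT, LIM, EXH, SPI of
WK3; it is the sufficiency half of FIN3). -/
def XexStmt : Prop := ∀ φ : ℝ → ℝ, IsWeight φ → QC φ → ¬ Lin φ → Tendsto φ atTop atTop →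
  ∀ (g : ℝ → ℂ) (K : Set ℝ) (C : ℝ), LInfPos φ g → SimpleSpec φ g → SpecPos φ g = rc K →
  K.Nonempty → K.Countable → Ineq φ K C →
  ∃ G : ℝ → ℂ, LInf φ G ∧ (∀ᵐ t : ℝ, 0 ≤ t → G t = g t) ∧ rc (Spec φ G) = SpecPos φ g

/-- XSU. Sufficiency (uses SPC, XIN, XEX).

Proof. `K = {x | (x : ℂ) ∈ SpecPos φ g}`, closed (SPC), `K ⊆ L`, countable. `NearI`, `FarI` are
monotone in the set. -/
def XsuStmt : Prop := ∀ φ : ℝ → ℝ, IsWeight φ → QC φ → ¬ Lin φ → Tendsto φ atTop atTop →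
  ∀ L : Set ℝ, (∀ K ⊆ L, IsClosed K → K.Countable) → (∀ p ∈ L, NearI φ L p) → FarI φ L →
  PropertyE φ L

/-- XBD. Weights bounded on the half-line: the inequality always holds.

Proof. `sup_ℝ |P| = sup_(t ≥ 0) |P|` for exponential sums: for `ε > 0` there are arbitrarily large
`τ` with `|exp(-iτx) - 1| ≤ ε` for all `x ∈ F` (pigeonhole on the torus: among the points
`(exp(-inx))_(x ∈ F)`, `n = 0, T, 2T, …`, two are close), so `|P(t+τ) - P(t)| ≤ ε ∑ |c x|`. So for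
`t ≤ 0`: `|P(t)| ≤ A C0 ≤ C0 A φ(t)`. -/
def XbdStmt : Prop := ∀ φ : ℝ → ℝ, IsWeight φ → (∃ C : ℝ, ∀ t : ℝ, 0 ≤ t → φ t ≤ C) →
  ∀ K : Set ℝ, ∃ C : ℝ, Ineq φ K C

/-- XTE. Quasi-concave and unbounded on the half-line implies `φ → ∞` (`φ s ≤ C φ t` for
`s ≤ t`). -/
def XteStmt : Prop := ∀ φ : ℝ → ℝ, IsWeight φ → QC φ → (¬ ∃ C : ℝ, ∀ t : ℝ, 0 ≤ t → φ t ≤ C) →
  Tendsto φ atTop atTop

/-- XPS. Perfect subsets (squad WK5). -/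
def XpsStmt : Prop := ∀ (φ : ℝ → ℝ) (C0 : ℝ) (M : ℕ), IsWeight φ → Poly φ C0 M → ¬ Lin φ →
  ∀ L : Set ℝ, PropertyE φ L → ∀ K ⊆ L, IsClosed K → K.Countable

/-- XFI. The theorem (uses everything, NEC and SUF of WK2, AllBoundedWeights).

Proof. `Lin φ`: NEC, SUF of WK2 (`CondII` holds). `¬ Lin φ`, bounded on the half-line:
AllBoundedWeights (first case, XRG) and XBD. `¬ Lin φ`, `QC φ`, unbounded: `FarI` by NEC of WK2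
(XRG), XNE, XPS; XSU with XTE. -/
def XfiStmt : Prop := ∀ (φ : ℝ → ℝ) (C0 : ℝ) (M : ℕ), IsWeight φ → Poly φ C0 M →
  (QC φ ∨ Lin φ) → ∀ L : Set ℝ, (PropertyE φ L ↔ FarI φ L ∧
    (Lin φ ∨ ((∀ K ⊆ L, IsClosed K → K.Countable) ∧ ∀ p ∈ L, NearI φ L p)))

end

end Pool.Agent.WK4
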