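import Pool.Agent.WK4.Stmts
import Pool.Agent.WK.Kit

/-!
# MP_7d2497_an, squad WK4, row XBD: weights bounded on the half-line
-/

set_option autoImplicit false

namespace Pool.Agent.WK4.XBD

open MeasureTheory Filter Topology Complex
open Pool.Agent.H78E Pool.Agent.WK Pool.Agent.WK2 Pool.Agent.WK3

noncomputable section

/-- simultaneous recurrence -/
theorem rec_exp (F : Finset ℝ) (T ε : ℝ) (hT : 0 ≤ T) (hε : 0 < ε) :
    ∃ τ : ℝ, T ≤ τ ∧ ∀ x ∈ F, ‖expR x τ - 1‖ ≤ ε := by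
  classical
  set u : ℕ → (F → ℂ) := fun n x => expR (x : ℝ) (n * T) with hu
  have hbd : ∀ n, u n ∈ Metric.closedBall (0 : F → ℂ) 1 := by
    intro n
    rw [mem_closedBall_zero_iff, pi_norm_le_iff_of_nonneg zero_le_one]
    intro x
    rw [hu]
    exact (norm_expR _ _).le
  obtain ⟨a, _, φ, hφ, hlim⟩ := tendsto_subseq_of_bounded (Metric.isBounded_closedBall) hbd
  obtain ⟨N, hN⟩ := Metric.cauchySeq_iff.1 hlim.cauchySeq ε hε
  have hd := hN N le_rfl (N + 1) (Nat.le_succ N)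
  have hlt : φ N < φ (N + 1) := hφ (Nat.lt_succ_self N)
  refine ⟨((φ (N + 1) - φ N : ℕ) : ℝ) * T, ?_, fun x hx => ?_⟩
  · have h1 : (1 : ℝ) ≤ ((φ (N + 1) - φ N : ℕ) : ℝ) := by
      exact_mod_cast (by omega : 1 ≤ φ (N + 1) - φ N)
    nlinarith
  · have h1 : dist (u (φ N) ⟨x, hx⟩) (u (φ (N + 1)) ⟨x, hx⟩) ≤ ε :=
      (dist_le_pi_dist _ _ _).trans hd.le
    rw [hu] at h1
    simp only at h1
    have h2 : ((φ (N + 1) : ℕ) : ℝ) * T =
        (φ N : ℝ) * T + ((φ (N + 1) - φ N : ℕ) : ℝ) * T := by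
      rw [Nat.cast_sub hlt.le]
      ring
    rw [h2, expR_add, dist_comm, dist_eq_norm] at h1
    have h3 : expR x ((φ N : ℝ) * T) * expR x (((φ (N + 1) - φ N : ℕ) : ℝ) * T) -
        expR x ((φ N : ℝ) * T) =
        expR x ((φ N : ℝ) * T) * (expR x (((φ (N + 1) - φ N : ℕ) : ℝ) * T) - 1) := by ring
    rw [h3, norm_mul, norm_expR, one_mul] at h1
    exact h1

theorem xbd0 : XbdStmt := by
  intro φ hφ hC K
  obtain ⟨C, hC⟩ := hC
  refine ⟨C, fun F c A _ hA t ht => ?_⟩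
  have hC1 : 1 ≤ C := (hφ.one_le 0).trans (hC 0 le_rfl)
  have hA0 : 0 ≤ A := by
    have h1 := (norm_nonneg _).trans (hA 0 le_rfl)
    have h2 := hφ.one_le 0
    nlinarith
  have key : ∀ ε : ℝ, 0 < ε → ‖ES F c t‖ ≤ C * A + ε * ∑ x ∈ F, ‖c x‖ := by
    intro ε hε
    obtain ⟨τ, hτ, hx⟩ := rec_exp F (-t) ε (by linarith) hε
    have h1 : ‖ES F c (t + τ)‖ ≤ C * A := by
      have h2 := hA (t + τ) (by linarith)
      have h3 := hC (t + τ) (by linarith)
      nlinarith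
    have h4 : ‖ES F c t - ES F c (t + τ)‖ ≤ ε * ∑ x ∈ F, ‖c x‖ := by
      have h5 : ES F c t - ES F c (t + τ) = ∑ x ∈ F, c x * expR x t * (1 - expR x τ) := by
        unfold ES
        rw [← Finset.sum_sub_distrib]
        refine Finset.sum_congr rfl fun x _ => ?_
        rw [expR_add]
        ring
      rw [h5, Finset.mul_sum]
      refine (norm_sum_le _ _).trans (Finset.sum_le_sum fun x hxF => ?_)
      rw [norm_mul, norm_mul, norm_expR, mul_one, norm_sub_rev, mul_comm]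
      exact mul_le_mul_of_nonneg_right (hx x hxF) (norm_nonneg _)
    have h6 : ES F c t = ES F c (t + τ) + (ES F c t - ES F c (t + τ)) := by ring
    rw [h6]
    exact (norm_add_le _ _).trans (add_le_add h1 h4)
  have h7 : ‖ES F c t‖ ≤ C * A := by
    have hS : 0 ≤ ∑ x ∈ F, ‖c x‖ := Finset.sum_nonneg fun x _ => norm_nonneg _
    refine le_of_forall_pos_le_add fun δ hδ => ?_
    have h8 := key (δ / (∑ x ∈ F, ‖c x‖ + 1)) (by positivity)
    refine h8.trans ?_
    have h9 : δ / (∑ x ∈ F, ‖c x‖ + 1) * ∑ x ∈ F, ‖c x‖ ≤ δ := by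
      rw [div_mul_eq_mul_div, div_le_iff₀ (by positivity)]
      nlinarith
    linarith
  have h10 : 0 ≤ C * A := mul_nonneg (by linarith) hA0
  exact h7.trans (le_mul_of_one_le_right h10 (hφ.one_le t))

end

end Pool.Agent.WK4.XBD

namespace Pool.Agent.WK4

/-- XBD -/
theorem xbd : XbdStmt := XBD.xbd0

end Pool.Agent.WK4
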