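import Pool.Agent.WK4.Stmts

/-!
# MP_7d2497_an, squad WK4: row XBE, weighted Bernstein inequality
-/

set_option autoImplicit false

namespace Pool.Agent.WK4.H28

open MeasureTheory Filter Topology Complex FourierTransform SchwartzMap
open Pool.Agent.H78E Pool.Agent.WK Pool.Agent.WK2 Pool.Agent.WK3

noncomputable section

theorem exists_kernel (m : ℕ) : ∃ b : 𝓢(ℝ, ℂ), ∀ x : ℝ, |x| ≤ 1 →
    ∫ u : ℝ, b u * Complex.exp (-(Complex.I * (u : ℂ) * (x : ℂ))) = (x : ℂ) ^ m := by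
  let f : ContDiffBump (0 : ℝ) := ⟨1, 2, by norm_num, by norm_num⟩
  have h1' : HasCompactSupport (fun x : ℝ => (f x : ℂ)) :=
    f.hasCompactSupport.comp_left (g := fun y : ℝ => (y : ℂ)) Complex.ofReal_zero
  have h1 : HasCompactSupport (fun x : ℝ => (((2 * Real.pi * x : ℝ)) : ℂ) ^ m * (f x : ℂ)) :=
    h1'.mul_left
  have h2 : ContDiff ℝ (⊤ : ℕ∞) (fun x : ℝ => (((2 * Real.pi * x : ℝ)) : ℂ) ^ m * (f x : ℂ)) := by
    refine ContDiff.mul ?_ (Complex.ofRealCLM.contDiff.comp f.contDiff)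
    exact (Complex.ofRealCLM.contDiff.comp (contDiff_const.mul contDiff_id)).pow m
  let ψ : 𝓢(ℝ, ℂ) := h1.toSchwartzMap h2
  have hψ : ∀ x : ℝ, ψ x = (((2 * Real.pi * x : ℝ)) : ℂ) ^ m * (f x : ℂ) := fun x => rfl
  have hF : 𝓕 (𝓕⁻ ψ) = ψ := FourierTransform.fourier_fourierInv_eq ψ
  refine ⟨𝓕⁻ ψ, fun x hx => ?_⟩
  have hpi0 : Real.pi ≠ 0 := Real.pi_ne_zero
  have key : ∫ u : ℝ, (𝓕⁻ ψ) u * Complex.exp (-(Complex.I * (u : ℂ) * (x : ℂ))) =
      ψ (x / (2 * Real.pi)) := by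
    conv_rhs => rw [← hF]
    rw [fourier_coe, Real.fourier_real_eq_integral_exp_smul]
    congr 1
    ext1 u
    rw [smul_eq_mul, mul_comm]
    congr 2
    have hpi : (Real.pi : ℂ) ≠ 0 := by exact_mod_cast Real.pi_ne_zero
    push_cast
    field_simp
  rw [key, hψ]
  have h3 : f (x / (2 * Real.pi)) = 1 := by
    apply f.one_of_mem_closedBall
    rw [Metric.mem_closedBall, Real.dist_eq, sub_zero, abs_div, abs_of_pos Real.two_pi_pos,
      div_le_iff₀ Real.two_pi_pos]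
    change |x| ≤ 1 * (2 * Real.pi)
    have := Real.pi_gt_three
    linarith
  have h4 : 2 * Real.pi * (x / (2 * Real.pi)) = x := by field_simp
  rw [h3, h4, Complex.ofReal_one, mul_one]

theorem integrable_weighted (b : 𝓢(ℝ, ℂ)) (n : ℕ) :
    Integrable (fun u : ℝ => (1 + |u|) ^ n * ‖b u‖) volume := by
  have hcont : Continuous fun t : ℝ => (1 + |t|) ^ n := by fun_prop
  have h1 : Integrable (fun u : ℝ => 2 ^ n * (‖b u‖ + ‖u‖ ^ n * ‖b u‖)) volume :=
    (b.integrable.norm.add (b.integrable_pow_mul volume n)).const_mul _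
  refine h1.mono' (hcont.mul b.continuous.norm).aestronglyMeasurable
    (Eventually.of_forall fun u => ?_)
  rw [Real.norm_of_nonneg (by positivity)]
  have h3 : (1 + |u|) ^ n ≤ 2 ^ n * (1 + |u| ^ n) := by
    have h4 : 1 + |u| ≤ 2 * max 1 |u| := by
      have h5 := le_max_left 1 |u|
      have h6 := le_max_right 1 |u|
      linarith
    have h7 : max 1 |u| ^ n ≤ 1 + |u| ^ n := by
      rcases max_cases 1 |u| with h | h
      · rw [h.1, one_pow]
        have : 0 ≤ |u| ^ n := by positivity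
        linarith
      · rw [h.1]
        linarith
    calc (1 + |u|) ^ n ≤ (2 * max 1 |u|) ^ n := pow_le_pow_left₀ (by positivity) h4 n
      _ = 2 ^ n * max 1 |u| ^ n := mul_pow _ _ _
      _ ≤ _ := mul_le_mul_of_nonneg_left h7 (by positivity)
  calc (1 + |u|) ^ n * ‖b u‖ ≤ (2 ^ n * (1 + |u| ^ n)) * ‖b u‖ :=
        mul_le_mul_of_nonneg_right h3 (norm_nonneg _)
    _ = 2 ^ n * (‖b u‖ + ‖u‖ ^ n * ‖b u‖) := by
        rw [Real.norm_eq_abs]
        ring

theorem norm_expI (a : ℝ) : ‖Complex.exp (Complex.I * (a : ℂ))‖ = 1 := by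
  rw [mul_comm]
  exact Complex.norm_exp_ofReal_mul_I a

theorem norm_expR' (x t : ℝ) : ‖expR x t‖ = 1 := by
  unfold expR
  have h : -(Complex.I * (t : ℂ) * (x : ℂ)) = Complex.I * (((-(t * x) : ℝ)) : ℂ) := by
    push_cast
    ring
  rw [h, norm_expI]

/-- the representation of the sum with the factors `(x - p)^m` -/
theorem rep (m : ℕ) (b : 𝓢(ℝ, ℂ)) (hb : ∀ x : ℝ, |x| ≤ 1 →
    ∫ u : ℝ, b u * Complex.exp (-(Complex.I * (u : ℂ) * (x : ℂ))) = (x : ℂ) ^ m)
    (p ρ : ℝ) (hρ : 0 < ρ) (S : Finset ℝ) (c : ℝ → ℂ) (hS : ∀ x ∈ S, |x - p| ≤ ρ) (t : ℝ) :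
    ES S (fun x => c x * (((x - p : ℝ)) : ℂ) ^ m) t =
      (ρ : ℂ) ^ m * ∫ u : ℝ, b u * (Complex.exp (Complex.I * (((u * p / ρ : ℝ)) : ℂ)) *
        ES S c (t + u / ρ)) := by
  have hρc : (ρ : ℂ) ≠ 0 := by exact_mod_cast hρ.ne'
  have hint : ∀ x : ℝ, Integrable (fun u : ℝ =>
      b u * (Complex.exp (Complex.I * (((u * p / ρ : ℝ)) : ℂ)) *
        (c x * expR x (t + u / ρ)))) volume := by
    intro x
    have hm : AEStronglyMeasurable (fun u : ℝ =>
        Complex.exp (Complex.I * (((u * p / ρ : ℝ)) : ℂ)) * (c x * expR x (t + u / ρ))) volume := by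
      apply Continuous.aestronglyMeasurable
      unfold expR
      fun_prop
    refine b.integrable.mul_bdd (c := ‖c x‖) hm (Eventually.of_forall fun u => ?_)
    rw [norm_mul, norm_expI, norm_mul, norm_expR', one_mul, mul_one]
  have h1 : ∫ u : ℝ, b u * (Complex.exp (Complex.I * (((u * p / ρ : ℝ)) : ℂ)) *
        ES S c (t + u / ρ)) = ∑ x ∈ S, ∫ u : ℝ,
        b u * (Complex.exp (Complex.I * (((u * p / ρ : ℝ)) : ℂ)) *
          (c x * expR x (t + u / ρ))) := by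
    rw [← integral_finsetSum S (fun x _ => hint x)]
    congr 1
    ext1 u
    unfold ES
    rw [Finset.mul_sum, Finset.mul_sum]
  rw [h1, Finset.mul_sum]
  unfold ES
  refine Finset.sum_congr rfl fun x hx => ?_
  have hx1 : |(x - p) / ρ| ≤ 1 := by
    rw [abs_div, abs_of_pos hρ, div_le_one hρ]
    exact hS x hx
  have h2 := hb ((x - p) / ρ) hx1
  have h3 : ∫ u : ℝ, b u * (Complex.exp (Complex.I * (((u * p / ρ : ℝ)) : ℂ)) *
      (c x * expR x (t + u / ρ))) = (c x * expR x t) *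
      ∫ u : ℝ, b u * Complex.exp (-(Complex.I * (u : ℂ) * (((x - p) / ρ : ℝ) : ℂ))) := by
    rw [← integral_const_mul]
    congr 1
    ext1 u
    have h4 : Complex.exp (Complex.I * (((u * p / ρ : ℝ)) : ℂ)) * expR x (t + u / ρ) =
        expR x t * Complex.exp (-(Complex.I * (u : ℂ) * (((x - p) / ρ : ℝ) : ℂ))) := by
      unfold expR
      rw [← Complex.exp_add, ← Complex.exp_add]
      congr 1
      push_cast
      field_simp
      ring
    calc b u * (Complex.exp (Complex.I * (((u * p / ρ : ℝ)) : ℂ)) * (c x * expR x (t + u / ρ)))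
        = b u * c x * (Complex.exp (Complex.I * (((u * p / ρ : ℝ)) : ℂ)) *
            expR x (t + u / ρ)) := by ring
      _ = _ := by rw [h4]; ring
  rw [h3, h2]
  push_cast
  rw [div_pow]
  field_simp

end

end Pool.Agent.WK4.H28

namespace Pool.Agent.WK4

open MeasureTheory Filter Topology Complex FourierTransform SchwartzMap
open Pool.Agent.H78E Pool.Agent.WK Pool.Agent.WK2 Pool.Agent.WK3

theorem xbe : XbeStmt := by
  intro φ C0 M hφ hP m
  obtain ⟨b, hb⟩ := H28.exists_kernel m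
  have hC0 : 0 ≤ C0 := by
    have h1 := (hφ.one_le 0).trans (hP 0)
    rw [abs_zero, add_zero, one_pow, mul_one] at h1
    linarith
  have hJ : 0 ≤ ∫ u : ℝ, (1 + |u|) ^ M * ‖b u‖ := integral_nonneg fun u => by positivity
  refine ⟨C0 * ∫ u : ℝ, (1 + |u|) ^ M * ‖b u‖, mul_nonneg hC0 hJ, ?_⟩
  intro p ρ S c B hρ hρ1 hS hB t
  have hφt : 0 ≤ φ t := zero_le_one.trans (hφ.one_le t)
  have hB0 : 0 ≤ B := by
    by_contra hneg
    have h1 := (norm_nonneg _).trans (hB 0)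
    have h2 := hφ.one_le 0
    nlinarith
  rw [H28.rep m b hb p ρ hρ S c hS t, norm_mul, norm_pow, Complex.norm_real,
    Real.norm_of_nonneg hρ.le]
  have hpt : ∀ u : ℝ, ‖b u * (Complex.exp (Complex.I * (((u * p / ρ : ℝ)) : ℂ)) *
      ES S c (t + u / ρ))‖ * ρ ^ M ≤ (B * φ t * C0) * ((1 + |u|) ^ M * ‖b u‖) := by
    intro u
    rw [norm_mul, norm_mul, H28.norm_expI, one_mul]
    have h1 : ‖ES S c (t + u / ρ)‖ ≤ B * (φ t * (C0 * (1 + |u / ρ|) ^ M)) :=
      (hB _).trans (mul_le_mul_of_nonneg_left ((hφ.submul _ _).trans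
        (mul_le_mul_of_nonneg_left (hP _) hφt)) hB0)
    have h2 : (1 + |u / ρ|) ^ M * ρ ^ M ≤ (1 + |u|) ^ M := by
      rw [← mul_pow]
      apply pow_le_pow_left₀ (by positivity)
      rw [abs_div, abs_of_pos hρ, add_mul, one_mul, div_mul_cancel₀ _ hρ.ne']
      linarith
    calc ‖b u‖ * ‖ES S c (t + u / ρ)‖ * ρ ^ M
        ≤ ‖b u‖ * (B * (φ t * (C0 * (1 + |u / ρ|) ^ M))) * ρ ^ M := by
          apply mul_le_mul_of_nonneg_right _ (by positivity)
          exact mul_le_mul_of_nonneg_left h1 (norm_nonneg _)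
      _ = (B * φ t * C0 * ‖b u‖) * ((1 + |u / ρ|) ^ M * ρ ^ M) := by ring
      _ ≤ (B * φ t * C0 * ‖b u‖) * (1 + |u|) ^ M := by
          apply mul_le_mul_of_nonneg_left h2
          positivity
      _ = _ := by ring
  have hI : Integrable (fun u : ℝ => (B * φ t * C0) * ((1 + |u|) ^ M * ‖b u‖)) volume :=
    (H28.integrable_weighted b M).const_mul _
  have h5 : ‖∫ u : ℝ, b u * (Complex.exp (Complex.I * (((u * p / ρ : ℝ)) : ℂ)) *
      ES S c (t + u / ρ))‖ * ρ ^ M ≤ (B * φ t * C0) * ∫ u : ℝ, (1 + |u|) ^ M * ‖b u‖ := by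
    have hρM : 0 < ρ ^ M := pow_pos hρ M
    rw [← integral_const_mul, ← le_div_iff₀ hρM, ← integral_div]
    refine norm_integral_le_of_norm_le (hI.div_const _) (Eventually.of_forall fun u => ?_)
    rw [le_div_iff₀ hρM]
    exact hpt u
  calc ρ ^ M * (ρ ^ m * ‖∫ u : ℝ, b u * (Complex.exp (Complex.I * (((u * p / ρ : ℝ)) : ℂ)) *
      ES S c (t + u / ρ))‖)
      = ρ ^ m * (‖∫ u : ℝ, b u * (Complex.exp (Complex.I * (((u * p / ρ : ℝ)) : ℂ)) *
          ES S c (t + u / ρ))‖ * ρ ^ M) := by ring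
    _ ≤ ρ ^ m * ((B * φ t * C0) * ∫ u : ℝ, (1 + |u|) ^ M * ‖b u‖) :=
        mul_le_mul_of_nonneg_left h5 (by positivity)
    _ = _ := by ring

end Pool.Agent.WK4
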