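import Pool.Agent.WK4.Stmts
import Pool.Agent.WK2.Kit

/-!
# MP_7d2497_an, squad WK4, row XDU: duality for finite sets, separating functions
-/

set_option autoImplicit false

namespace Pool.Agent.WK4

open MeasureTheory Filter Topology Complex
open Pool.Agent.H78E Pool.Agent.WK Pool.Agent.WK2 Pool.Agent.WK3

/-- XDU. -/
theorem xdu (hDUA : DuaStmt) (hSEP : SepStmt) : XduStmt := by
  intro φ hφ
  have him : ∀ x : ℝ, ((x : ℂ)).im ≤ 0 := fun x => by simp
  refine ⟨?_, ?_⟩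
  · obtain ⟨S0, hS0, hD⟩ := hDUA φ hφ
    refine ⟨S0, hS0, fun S f δ hf hδ η hη => ?_⟩
    obtain ⟨F, hF, -, hFT⟩ := toE hφ hf
    obtain ⟨F1, h1, h2⟩ := hD S F δ (fun c hc => by
      have := hδ c hc
      rwa [Finset.sum_congr rfl fun x _ => by rw [hFT (x : ℂ) (him x)]] at this) η hη
    obtain ⟨f1, hf1, hF1, -, hFT1⟩ := ofE hφ F1
    refine ⟨f1, hf1, fun x hx => ?_, ?_⟩
    · rw [hFT1 (x : ℂ) (him x)]
      exact h1 x hx
    · rw [← distE hφ hF hF1]
      exact h2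
  · intro F x
    obtain ⟨A, h1, h2⟩ := (hSEP φ hφ).1 F x
    obtain ⟨a, ha, -, -, hFT⟩ := ofE hφ A
    refine ⟨a, ha, ?_, fun y hy hyx => ?_⟩
    · rw [hFT (x : ℂ) (him x)]
      exact h1
    · rw [hFT (y : ℂ) (him y)]
      exact h2 y hy hyx

end Pool.Agent.WK4
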