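import Pool.Agent.WK4.Stmts
import Pool.Agent.WK2.Adi

/-!
# MP_7d2497_an, squad WK4: row XF5
-/

set_option autoImplicit false

namespace Pool.Agent.WK4

open MeasureTheory Filter Topology Complex
open Pool.Agent.H78E Pool.Agent.WK Pool.Agent.WK2 Pool.Agent.WK3
open Pool.Agent.WK2.ADI

noncomputable section

namespace XF

lemma exists_pos_le (F : Finset ℝ) (r : ℝ → ℝ) (hr : ∀ x ∈ F, 0 < r x) :
    ∃ ρ : ℝ, 0 < ρ ∧ ∀ x ∈ F, ρ ≤ r x := by
  classical
  induction F using Finset.induction_on with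
  | empty => exact ⟨1, one_pos, fun x hx => absurd hx (Finset.notMem_empty x)⟩
  | insert y s hy ih =>
    obtain ⟨ρ, h1, h2⟩ := ih fun x hx => hr x (Finset.mem_insert_of_mem hx)
    refine ⟨min ρ (r y), lt_min h1 (hr y (Finset.mem_insert_self y s)), fun x hx => ?_⟩
    rcases Finset.mem_insert.1 hx with h | h
    · rw [h]
      exact min_le_right _ _
    · exact (min_le_left _ _).trans (h2 x h)

/-- pairing of an exponential sum with a function of the half-line -/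
lemma FT_bound {φ : ℝ → ℝ} (hφ : IsWeight φ) {f : ℝ → ℂ} (hf : LP φ f) (S : Finset ℝ)
    (c : ℝ → ℂ) {A : ℝ} (hA : ∀ t : ℝ, 0 ≤ t → ‖ES S c t‖ ≤ A * φ t) :
    ‖∑ x ∈ S, c x * FT f (x : ℂ)‖ ≤ A * ∫ t : ℝ, φ t * ‖f t‖ := by
  rw [← pair0_ES (LP.integrable hφ hf)]
  exact pairhalf hf hA

end XF

open XF in
theorem xf5 (hLC : XlcStmt) (hDU : XduStmt) : Xf5Stmt := by
  classical
  intro φ C0 M0 hφ hPoly hLin p F0 n hp hn
  have hn0 : 0 < n := by linarith
  choose a ha1 ha2 ha3 using (hDU φ hφ).2 (insert p F0)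
  have hpa : ∀ x ∈ F0, FT (a x) (p : ℂ) = 0 := fun x hx =>
    ha3 x p (Finset.mem_insert_self p F0) (fun h => hp (h ▸ hx))
  set k : ℝ := (F0.card : ℝ) with hk
  have hk0 : 0 ≤ k := Nat.cast_nonneg _
  set ε : ℝ := 1 / (2 * (k + 1) * n) with hε
  have hε0 : 0 < ε := by positivity
  have hex : ∀ x : ℝ, ∃ ρ : ℝ, 0 < ρ ∧ (x ∈ F0 → ∀ (S : Finset ℝ) (c : ℝ → ℂ) (B : ℝ),
      (∀ x ∈ S, |x - p| ≤ ρ) → (∀ t : ℝ, ‖ES S c t‖ ≤ B * φ t) →
      ‖∑ y ∈ S, c y * FT (a x) (y : ℂ)‖ ≤ ε * B) := by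
    intro x
    by_cases hx : x ∈ F0
    · obtain ⟨ρ, h1, h2⟩ := hLC φ C0 M0 hφ hPoly hLin p (a x) (ha1 x) (hpa x hx) ε hε0
      exact ⟨ρ, h1, fun _ => h2⟩
    · exact ⟨1, one_pos, fun h => absurd h hx⟩
  choose Rx hRx0 hRx using hex
  have hmin : ∀ x ∈ F0, 0 < min (Rx x) (|x - p| / 2) := by
    intro x hx
    have h1 : x - p ≠ 0 := fun h => hp ((sub_eq_zero.1 h) ▸ hx)
    exact lt_min (hRx0 x) (by have := abs_pos.2 h1; linarith)
  obtain ⟨ρ, hρ0, hρ⟩ := exists_pos_le F0 _ hmin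
  set N : ℝ → ℝ := fun x => ∫ t : ℝ, φ t * ‖a x t‖ with hN
  have hN0 : ∀ x, 0 ≤ N x := fun x =>
    integral_nonneg fun t => mul_nonneg (wpos hφ t).le (norm_nonneg _)
  set M : ℝ := ∑ x ∈ F0, N x with hM
  have hM0 : 0 ≤ M := Finset.sum_nonneg fun x _ => hN0 x
  refine ⟨ρ, n * (2 * M + 2), hρ0, by positivity, fun F1 hF1 hI => ?_⟩
  have hF' : ∀ x ∈ insert p F1, |x - p| ≤ ρ := by
    intro x hx
    rcases Finset.mem_insert.1 hx with h | h
    · rw [h, sub_self, abs_zero]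
      exact hρ0.le
    · exact hF1 x h
  generalize hF2 : insert p F1 = F' at hF' hI ⊢
  have hdis : Disjoint F0 F' := by
    rw [Finset.disjoint_left]
    intro x hx hx'
    have h1 := hF' x hx'
    have h2 := (hρ x hx).trans (min_le_right _ _)
    have h3 : x - p ≠ 0 := fun h => hp ((sub_eq_zero.1 h) ▸ hx)
    have h4 := abs_pos.2 h3
    linarith
  refine ⟨hdis, fun c A hA => ?_⟩
  have hA0 := bound_nonneg hφ hA
  set s : ℝ := ∑ x ∈ F0, ‖c x‖ with hs
  have hs0 : 0 ≤ s := Finset.sum_nonneg fun x _ => norm_nonneg _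
  have hsplit : ∀ t : ℝ, ES (F0 ∪ F') c t = ES F0 c t + ES F' c t := by
    intro t
    unfold ES
    exact Finset.sum_union hdis
  have hP1 : ∀ t : ℝ, 0 ≤ t → ‖ES F' c t‖ ≤ (A + s) * φ t := by
    intro t ht
    have h1 : ES F' c t = ES (F0 ∪ F') c t - ES F0 c t := by
      rw [hsplit t]
      ring
    have h2 : ‖ES F0 c t‖ ≤ s * φ t :=
      (ES_norm_le F0 c t).trans (le_mul_of_one_le_right hs0 (hφ.one_le t))
    rw [h1]
    refine (norm_sub_le _ _).trans ((add_le_add (hA t ht) h2).trans (le_of_eq ?_))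
    ring
  have hP : ∀ t : ℝ, ‖ES F' c t‖ ≤ (n * (A + s)) * φ t := by
    intro t
    rcases le_total 0 t with ht | ht
    · refine (hP1 t ht).trans ?_
      apply mul_le_mul_of_nonneg_right _ (wpos hφ t).le
      exact le_mul_of_one_le_left (by linarith) hn
    · have h1 := hI F' c (A + s) (le_refl _) hP1 t ht
      linarith [h1]
  have hc : ∀ x ∈ F0, ‖c x‖ ≤ A * N x + ε * (n * (A + s)) := by
    intro x hx
    have h1 := FT_bound hφ (ha1 x) (F0 ∪ F') c hA
    have h2 := hRx x hx F' c (n * (A + s)) (fun y hy =>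
      (hF' y hy).trans ((hρ x hx).trans (min_le_left _ _))) hP
    have h3 : ∑ y ∈ F0 ∪ F', c y * FT (a x) (y : ℂ) =
        c x + ∑ y ∈ F', c y * FT (a x) (y : ℂ) := by
      rw [Finset.sum_union hdis, Finset.sum_eq_single x]
      · rw [ha2 x, mul_one]
      · intro y hy hyx
        rw [ha3 x y (Finset.mem_insert_of_mem hy) hyx, mul_zero]
      · intro h
        exact absurd hx h
    rw [h3] at h1
    have h4 : c x = (c x + ∑ y ∈ F', c y * FT (a x) (y : ℂ)) -
        ∑ y ∈ F', c y * FT (a x) (y : ℂ) := by ring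
    rw [h4]
    exact (norm_sub_le _ _).trans (add_le_add h1 h2)
  have hsum : s ≤ A * M + k * (ε * (n * (A + s))) := by
    have h1 := Finset.sum_le_sum hc
    rw [Finset.sum_add_distrib, ← Finset.mul_sum, Finset.sum_const, nsmul_eq_mul] at h1
    exact h1
  have hke : k * (ε * (n * (A + s))) ≤ (A + s) / 2 := by
    have h1 : ε * n = 1 / (2 * (k + 1)) := by
      rw [hε]
      field_simp
    have h2 : k * (ε * (n * (A + s))) = k * (ε * n) * (A + s) := by ring
    have h3 : k * (ε * n) ≤ 1 / 2 := by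
      rw [h1, mul_one_div, div_le_div_iff₀ (by positivity) (by norm_num)]
      linarith
    rw [h2]
    have h4 : 0 ≤ A + s := by linarith
    calc k * (ε * n) * (A + s) ≤ 1 / 2 * (A + s) := mul_le_mul_of_nonneg_right h3 h4
      _ = (A + s) / 2 := by ring
  have hs1 : s ≤ (2 * M + 1) * A := by linarith
  intro t
  refine (hP t).trans ?_
  apply mul_le_mul_of_nonneg_right _ (wpos hφ t).le
  have h1 : A + s ≤ (2 * M + 2) * A := by linarith
  calc n * (A + s) ≤ n * ((2 * M + 2) * A) := mul_le_mul_of_nonneg_left h1 hn0.le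
    _ = n * (2 * M + 2) * A := by ring

end

end Pool.Agent.WK4
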