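import Pool.Agent.WK4.Stmts
import Pool.Agent.WK2.Kit
import Pool.Agent.WK.Kit
import Pool.Agent.WK.Av
import Pool.Agent.WK.Cnv
import Pool.Agent.WK.Lew
import Pool.Agent.WK.Fac
import Pool.Agent.WK.De0
import Pool.Agent.WK.Den
import Pool.Agent.WK.Qai

/-!
# MP_7d2497_an, squad WK4, row XF6 (helper24): approximation
-/

set_option autoImplicit false

namespace Pool.Agent.WK4

open MeasureTheory Filter Topology Complex
open Pool.Agent.H78E Pool.Agent.WK Pool.Agent.WK2 Pool.Agent.WK3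
open Pool.Agent.WKS (dv YW WS chiW ISub annW lapuW)

noncomputable section

namespace H24

variable {φ : ℝ → ℝ}

/-- the norm -/
def nm (φ : ℝ → ℝ) (f : ℝ → ℂ) : ℝ := ∫ t : ℝ, φ t * ‖f t‖

theorem nm_nonneg (hφ : IsWeight φ) (f : ℝ → ℂ) : 0 ≤ nm φ f :=
  integral_nonneg fun t => mul_nonneg (wpos hφ t).le (norm_nonneg _)

theorem nm_add (hφ : IsWeight φ) {f g : ℝ → ℂ} (hf : LP φ f) (hg : LP φ g) :
    nm φ (fun t => f t + g t) ≤ nm φ f + nm φ g := by
  unfold nm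
  rw [← integral_add hf.1.2 hg.1.2]
  refine integral_mono (LP.add hφ hf hg).1.2 (hf.1.2.add hg.1.2) fun t => ?_
  show φ t * ‖f t + g t‖ ≤ φ t * ‖f t‖ + φ t * ‖g t‖
  rw [← mul_add]
  exact mul_le_mul_of_nonneg_left (norm_add_le _ _) (wpos hφ t).le

theorem nm_smul (c : ℂ) (f : ℝ → ℂ) : nm φ (fun t => c * f t) = ‖c‖ * nm φ f := by
  unfold nm
  rw [← integral_const_mul]
  congr 1
  funext t
  rw [norm_mul]
  ring

theorem nm_tri (hφ : IsWeight φ) {f g h : ℝ → ℂ} (hf : LP φ f) (hg : LP φ g) (hh : LP φ h) :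
    nm φ (fun t => f t - h t) ≤ nm φ (fun t => f t - g t) + nm φ (fun t => g t - h t) := by
  have h1 := nm_add hφ (LP.sub hφ hf hg) (LP.sub hφ hg hh)
  have h2 : (fun t => (f t - g t) + (g t - h t)) = fun t => f t - h t := by
    funext t
    ring
  rwa [h2] at h1

theorem nm_sum (hφ : IsWeight φ) {ι : Type} (s : Finset ι) (f : ι → ℝ → ℂ)
    (hf : ∀ i ∈ s, LP φ (f i)) : nm φ (fun t => ∑ i ∈ s, f i t) ≤ ∑ i ∈ s, nm φ (f i) := by
  classical
  induction s using Finset.induction_on with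
  | empty =>
    simp [nm]
  | insert a s ha ih =>
    have h1 := nm_add hφ (hf a (Finset.mem_insert_self a s))
      (LP.sum hφ s f fun i hi => hf i (Finset.mem_insert_of_mem hi))
    have h2 := ih fun i hi => hf i (Finset.mem_insert_of_mem hi)
    rw [Finset.sum_insert ha]
    have h3 : (fun t => ∑ i ∈ insert a s, f i t) = fun t => f a t + ∑ i ∈ s, f i t := by
      funext t
      rw [Finset.sum_insert ha]
    rw [h3]
    linarith

theorem nm_congr {f g : ℝ → ℂ} (h : f =ᵐ[volume] g) : nm φ f = nm φ g := by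
  unfold nm
  apply integral_congr_ae
  filter_upwards [h] with t ht
  rw [ht]

theorem nm_comm (f g : ℝ → ℂ) : nm φ (fun t => f t - g t) = nm φ (fun t => g t - f t) := by
  unfold nm
  congr 1
  funext t
  rw [norm_sub_rev]

/-- uniqueness of the transform -/
theorem uniq (hφ : IsWeight φ) {f g : ℝ → ℂ} (hf : LP φ f) (hg : LP φ g)
    (h : ∀ z : ℂ, z.im < 0 → FT f z = FT g z) : f =ᵐ[volume] g := by
  obtain ⟨F, hF, _, hF2⟩ := toE hφ hf
  obtain ⟨K, hK, _, hK2⟩ := toE hφ hg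
  have h1 : F - K = 0 := by
    apply lapuW hφ
    intro z hz
    rw [map_sub, ← hF2 z hz.le, ← hK2 z hz.le, h z hz, sub_self]
  have h2 : F = K := sub_eq_zero.1 h1
  rw [h2] at hF
  filter_upwards [hF, hK] with t h3 h4
  rw [← h3, h4]

theorem RR_zero (x : ℝ) (t : ℝ) : RR x (fun _ => 0) t = 0 := by
  unfold RR cv
  simp

theorem fac0 : FacStmt := fac cnv lew

/-- `RR` of a combination -/
theorem RR_sub_sum (hφ : IsWeight φ) (x : ℝ) {ι : Type} (s : Finset ι) (b : ι → ℂ)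
    (a : ι → ℝ → ℂ) (ha : ∀ i ∈ s, LP φ (a i)) {w : ℝ → ℂ} (hw : LP φ w) :
    ∀ t, RR x (fun t => w t - ∑ i ∈ s, b i * a i t) t = RR x w t - ∑ i ∈ s, b i * RR x (a i) t := by
  classical
  obtain ⟨D, _, hD⟩ := fac0 φ hφ
  induction s using Finset.induction_on with
  | empty =>
    intro t
    simp
  | insert j s hj ih =>
    intro t
    have h1 := ih fun i hi => ha i (Finset.mem_insert_of_mem hi)
    have h2 : LP φ (fun t => w t - ∑ i ∈ s, b i * a i t) :=
      LP.sub hφ hw (LP.sum hφ s _ fun i hi => (ha i (Finset.mem_insert_of_mem hi)).smul (b i))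
    have h3 := (hD x _ h2).2.2.2 (a j) (ha j (Finset.mem_insert_self j s)) (b j) t
    have h4 : (fun t => w t - ∑ i ∈ insert j s, b i * a i t) =
        fun t => (w t - ∑ i ∈ s, b i * a i t) - b j * a j t := by
      funext t
      rw [Finset.sum_insert hj]
      ring
    rw [h4, h3, h1, Finset.sum_insert hj]
    ring

/-- the approximation by `RR v` -/
theorem step0 (xdu : XduStmt) (hφ : IsWeight φ) (p : ℝ) (F0 : Finset ℝ) (f : ℝ → ℂ)
    (hp : p ∉ F0) (hf : LP φ f) (hfp : FT f (p : ℂ) = 0) (hf0 : ∀ x ∈ F0, FT f (x : ℂ) = 0)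
    (ε : ℝ) (hε : 0 < ε) :
    ∃ v : ℝ → ℂ, LP φ v ∧ (∀ x ∈ F0, FT v (x : ℂ) = 0) ∧
      nm φ (fun t => f t - RR p v t) ≤ ε := by
  obtain ⟨D, hD0, hD⟩ := fac0 φ hφ
  have hsep := (xdu φ hφ).2
  choose a ha ha1 ha2 using fun x : ℝ => hsep F0 x
  obtain ⟨Cx, hCx⟩ : ∃ Cx : ℝ → ℝ, Cx = fun x : ℝ => ‖((x : ℂ) - p - Complex.I) / ((x : ℂ) - p)‖ :=
    ⟨_, rfl⟩
  have hCx0 : ∀ x, 0 ≤ Cx x := by
    intro x
    rw [hCx]
    exact norm_nonneg _
  obtain ⟨M, hM⟩ : ∃ M : ℝ, M = 1 + ∑ x ∈ F0, Cx x * (D * nm φ (a x)) := ⟨_, rfl⟩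
  have hM0 : 0 < M := by
    rw [hM]
    have : 0 ≤ ∑ x ∈ F0, Cx x * (D * nm φ (a x)) := Finset.sum_nonneg fun x _ =>
      mul_nonneg (hCx0 x) (mul_nonneg hD0 (nm_nonneg hφ _))
    linarith
  have hθ : 0 < ε / M := div_pos hε hM0
  obtain ⟨N, c, hN⟩ := de0 den fac0 φ hφ p f hf hfp (ε / M) hθ
  have hq : ∀ n : ℕ, LP φ (q ((n : ℝ) + 3 / 2)) := by
    intro n
    obtain ⟨C, hC⟩ := (qai φ hφ).1
    refine (hC _ ?_).1
    have : (0 : ℝ) ≤ n := Nat.cast_nonneg n
    linarith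
  obtain ⟨w, hw⟩ : ∃ w : ℝ → ℂ,
      w = fun t => (fun _ => (0 : ℂ)) t - ∑ n ∈ Finset.range N, (-c n) * q ((n : ℝ) + 3 / 2) t :=
    ⟨_, rfl⟩
  have hwLP : LP φ w := by
    rw [hw]
    exact LP.sub hφ LP_zero (LP.sum hφ _ _ fun n _ => (hq n).smul _)
  have hRw : ∀ t, RR p w t = ∑ n ∈ Finset.range N, c n * RR p (q ((n : ℝ) + 3 / 2)) t := by
    intro t
    rw [hw, RR_sub_sum hφ p (Finset.range N) (fun n => -c n) (fun n => q ((n : ℝ) + 3 / 2))
      (fun n _ => hq n) LP_zero t, RR_zero, zero_sub, ← Finset.sum_neg_distrib]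
    apply Finset.sum_congr rfl
    intro n _
    ring
  have hfw : nm φ (fun t => f t - RR p w t) < ε / M := by
    have h1 : nm φ (fun t => f t - RR p w t) =
        ∫ t : ℝ, φ t * ‖f t - ∑ n ∈ Finset.range N, c n * RR p (q ((n : ℝ) + 3 / 2)) t‖ := by
      unfold nm
      simp only [hRw]
    rw [h1]
    exact hN
  obtain ⟨hRwLP, _, hRwFT, _⟩ := hD p w hwLP
  -- the values of the transform of `w` on `F0`
  have hval : ∀ x ∈ F0, ‖FT w (x : ℂ)‖ ≤ Cx x * (ε / M) := by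
    intro x hx
    have hxp : (x : ℂ) - p ≠ 0 := by
      intro h
      have h1 : (x : ℂ) = (p : ℂ) := sub_eq_zero.1 h
      have h2 : x = p := by exact_mod_cast h1
      exact hp (h2 ▸ hx)
    have hxi : (x : ℂ) - p - Complex.I ≠ 0 := by
      intro h
      have h1 := congrArg Complex.im h
      simp at h1
    have h1 := hRwFT (x : ℂ) (by simp)
    have h2 : ‖FT (RR p w) (x : ℂ)‖ ≤ ε / M := by
      have h3 := norm_FT_le hφ (LP.sub hφ hf hRwLP) (z := (x : ℂ)) (by simp)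
      rw [FT_sub hφ hf hRwLP (by simp), hf0 x hx, zero_sub, norm_neg] at h3
      exact h3.trans hfw.le
    have h4 : FT w (x : ℂ) = ((x : ℂ) - p - Complex.I) / ((x : ℂ) - p) * FT (RR p w) (x : ℂ) := by
      rw [h1]
      field_simp
    rw [h4, norm_mul, hCx]
    exact mul_le_mul_of_nonneg_left h2 (norm_nonneg _)
  refine ⟨fun t => w t - ∑ x ∈ F0, FT w (x : ℂ) * a x t, ?_, ?_, ?_⟩
  · exact LP.sub hφ hwLP (LP.sum hφ _ _ fun x _ => (ha x).smul _)
  · intro x hx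
    rw [FT_sub hφ hwLP (LP.sum hφ _ _ fun x _ => (ha x).smul _) (by simp),
      FT_sum hφ F0 (fun x t => FT w (x : ℂ) * a x t) (fun x _ => (ha x).smul _) (by simp),
      Finset.sum_eq_single x]
    · rw [FT_smul, ha1, mul_one, sub_self]
    · intro y _ hyx
      rw [FT_smul, ha2 y x hx hyx.symm, mul_zero]
    · intro h
      exact absurd hx h
  · have hRv : (fun t => f t - RR p (fun t => w t - ∑ x ∈ F0, FT w (x : ℂ) * a x t) t) =
        fun t => (f t - RR p w t) + ∑ x ∈ F0, FT w (x : ℂ) * RR p (a x) t := by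
      funext t
      rw [RR_sub_sum hφ p F0 (fun x => FT w (x : ℂ)) a (fun x _ => ha x) hwLP t]
      ring
    rw [hRv]
    have hsum : LP φ (fun t => ∑ x ∈ F0, FT w (x : ℂ) * RR p (a x) t) :=
      LP.sum hφ F0 (fun x t => FT w (x : ℂ) * RR p (a x) t)
        fun x _ => (hD p (a x) (ha x)).1.smul _
    have h1 := nm_add hφ (LP.sub hφ hf hRwLP) hsum
    have h2 := nm_sum hφ F0 (fun x t => FT w (x : ℂ) * RR p (a x) t)
      fun x _ => (hD p (a x) (ha x)).1.smul _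
    have h3 : ∑ x ∈ F0, nm φ (fun t => FT w (x : ℂ) * RR p (a x) t) ≤
        ∑ x ∈ F0, Cx x * (ε / M) * (D * nm φ (a x)) := by
      apply Finset.sum_le_sum
      intro x hx
      rw [nm_smul]
      exact mul_le_mul (hval x hx) (hD p (a x) (ha x)).2.1 (nm_nonneg hφ _)
        (mul_nonneg (hCx0 x) hθ.le)
    have h4 : ∑ x ∈ F0, Cx x * (ε / M) * (D * nm φ (a x)) = (ε / M) * (M - 1) := by
      rw [hM, add_sub_cancel_left, Finset.mul_sum]
      apply Finset.sum_congr rfl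
      intro x _
      ring
    have h5 : (ε / M) * (M - 1) + ε / M = ε := by
      field_simp
      ring
    linarith

end H24

open H24

/-- XF6: approximation of a function with transform zero on `F0 ∪ {p}` by functions with
transform zero in addition on a set near `p`. -/
theorem xf6 (xlc : XlcStmt) (xf5 : Xf5Stmt) (xdu : XduStmt) : Xf6Stmt := by
  intro φ C0 M hφ hpoly hlin p F0 f hp hf hfp hf0 n ε hn hε
  obtain ⟨v, hv, hv0, hfv⟩ := step0 xdu hφ p F0 f hp hf hfp hf0 (ε / 4) (by positivity)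
  obtain ⟨Df, hDf0, hDf⟩ := fac0 φ hφ
  obtain ⟨D, hD0, hD⟩ := av cnv lew φ hφ p
  obtain ⟨hRvLP, _, hRvFT, _⟩ := hDf p v hv
  have hnv : 0 ≤ nm φ v := nm_nonneg hφ v
  -- the choice of `L`
  obtain ⟨L, hL0, hL⟩ : ∃ L : ℝ, 0 < L ∧ D * ((1 + φ L) / L) * nm φ v ≤ ε / 8 := by
    obtain ⟨Q, hQ⟩ : ∃ Q : ℝ, Q = 16 * (D * nm φ v) / ε + 1 := ⟨_, rfl⟩
    have hQ1 : 1 ≤ Q := by
      rw [hQ]
      have : 0 ≤ 16 * (D * nm φ v) / ε := by positivity
      linarith
    have h1 : ¬ ∀ t : ℝ, 0 ≤ t → t ≤ Q * φ t := fun h => hlin ⟨Q, h⟩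
    push Not at h1
    obtain ⟨L, hL, hQL⟩ := h1
    have hφL := hφ.one_le L
    have hL0 : 0 < L := by
      refine lt_of_lt_of_le ?_ hQL.le
      positivity
    refine ⟨L, hL0, ?_⟩
    have h2 : (1 + φ L) / L ≤ 2 / Q := by
      rw [div_le_div_iff₀ hL0 (by linarith)]
      nlinarith
    calc D * ((1 + φ L) / L) * nm φ v ≤ D * (2 / Q) * nm φ v := by gcongr
      _ = 2 * (D * nm φ v) / Q := by ring
      _ ≤ ε / 8 := by
          rw [div_le_div_iff₀ (by linarith) (by norm_num)]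
          have h3 : 16 * (D * nm φ v) = (Q - 1) * ε := by
            rw [hQ]
            field_simp
            ring
          nlinarith
  obtain ⟨S, hS1, hS⟩ := (lew φ hφ).2.1 L
  have hS' : ∀ t : ℝ, 0 ≤ t → t ≤ L → φ t ≤ S := fun t h0 h1 => hS t (by rwa [abs_of_nonneg h0])
  obtain ⟨ρ1, hρ1, hρ1'⟩ : ∃ ρ1 : ℝ, 0 < ρ1 ∧ D * (ρ1 * S) * nm φ v ≤ ε / 8 := by
    refine ⟨ε / (8 * (D * S * nm φ v + 1)), by positivity, ?_⟩
    have h1 : 0 < D * S * nm φ v + 1 := by positivity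
    have h2 : D * (ε / (8 * (D * S * nm φ v + 1)) * S) * nm φ v =
        (ε / 8) * ((D * S * nm φ v) / (D * S * nm φ v + 1)) := by
      field_simp
    rw [h2]
    refine mul_le_of_le_one_right (by positivity) ?_
    rw [div_le_one h1]
    linarith
  have havg : ∀ y : ℝ, |y - p| ≤ ρ1 →
      nm φ (fun t => RR p (cv v (ka L y)) t) ≤ ε / 4 := by
    intro y hy
    refine ((hD L y S v hL0 hS' hv).2.2.2).trans ?_
    have h1 : |y - p| * S ≤ ρ1 * S := mul_le_mul_of_nonneg_right hy (by linarith)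
    calc D * ((1 + φ L) / L + |y - p| * S) * ∫ t : ℝ, φ t * ‖v t‖
        ≤ D * ((1 + φ L) / L + ρ1 * S) * nm φ v :=
          mul_le_mul_of_nonneg_right (mul_le_mul_of_nonneg_left (by linarith) hD0) hnv
      _ = D * ((1 + φ L) / L) * nm φ v + D * (ρ1 * S) * nm φ v := by ring
      _ ≤ ε / 4 := by linarith
  obtain ⟨ρ2, n', hρ2, hn', h5⟩ := xf5 φ C0 M hφ hpoly hlin p F0 n hp hn
  obtain ⟨⟨S0, hS0, hdua⟩, _⟩ := xdu φ hφ
  have hRvp : FT (RR p v) (p : ℂ) = 0 := by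
    rw [hRvFT (p : ℂ) (by simp), sub_self, zero_div, zero_mul]
  have hRv0 : ∀ x ∈ F0, FT (RR p v) (x : ℂ) = 0 := by
    intro x hx
    rw [hRvFT (x : ℂ) (by simp), hv0 x hx, mul_zero]
  have hS0' : 0 < S0 := lt_of_lt_of_le one_pos hS0
  obtain ⟨ρ3, hρ3, h3⟩ := xlc φ C0 M hφ hpoly hlin p (RR p v) hRvLP hRvp
    (ε / (8 * n' * S0 * (1 + S))) (by positivity)
  refine ⟨min ρ1 (min ρ2 ρ3), lt_min hρ1 (lt_min hρ2 hρ3), ?_⟩
  intro F' hF' hineq y hy
  have hF2 : ∀ x ∈ F', |x - p| ≤ ρ2 := fun x hx =>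
    (hF' x hx).trans ((min_le_right _ _).trans (min_le_left _ _))
  have hF3 : ∀ x ∈ insert p F', |x - p| ≤ ρ3 := by
    intro x hx
    rcases Finset.mem_insert.1 hx with rfl | hx
    · rw [sub_self, abs_zero]
      exact hρ3.le
    · exact (hF' x hx).trans ((min_le_right _ _).trans (min_le_right _ _))
  have hy1 : |y - p| ≤ ρ1 := hy.trans (min_le_left _ _)
  obtain ⟨hdisj, hbd⟩ := h5 F' hF2 hineq
  have hδ : 0 < ε / (8 * (1 + S)) := by positivity
  obtain ⟨f1, hf1, hf1z, hdist⟩ := hdua (F0 ∪ insert p F') (RR p v) (ε / (8 * (1 + S))) hRvLP (by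
    intro c hc
    rw [Finset.sum_union hdisj, Finset.sum_eq_zero (fun x hx => by rw [hRv0 x hx, mul_zero]),
      zero_add]
    have h1 := h3 (insert p F') c (n' * S0) hF3 (hbd c S0 hc)
    have h2 : ε / (8 * n' * S0 * (1 + S)) * (n' * S0) = ε / (8 * (1 + S)) := by
      field_simp
    rwa [h2] at h1) (ε / (8 * (1 + S))) hδ
  obtain ⟨g1, g2, g3, _⟩ := hD L y S f1 hL0 hS' hf1
  obtain ⟨hkaLP, hkaS⟩ := H60V.ka_LP hφ hL0 y hS'
  refine ⟨fun t => f1 t - cv f1 (ka L y) t, LP.sub hφ hf1 g1, ?_, ?_⟩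
  · intro x hx
    rw [FT_sub hφ hf1 g1 (by simp)]
    rcases Finset.mem_insert.1 hx with rfl | hx
    · rw [g2, sub_self]
    · have hx' : x ∈ F0 ∪ insert p F' := by
        rcases Finset.mem_insert.1 hx with rfl | hx
        · exact Finset.mem_union_right _ (Finset.mem_insert_self _ _)
        · rcases Finset.mem_union.1 hx with hx | hx
          · exact Finset.mem_union_left _ hx
          · exact Finset.mem_union_right _ (Finset.mem_insert_of_mem hx)
      rw [g3 x (hf1z x hx'), hf1z x hx', sub_zero]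
  · -- the distance
    have hdist' : nm φ (fun t => RR p v t - f1 t) ≤ ε / (8 * (1 + S)) + ε / (8 * (1 + S)) := hdist
    obtain ⟨c1, c2, c3⟩ := cnv φ hφ (RR p v) (ka L y) hRvLP hkaLP
    obtain ⟨d1, d2, d3⟩ := cnv φ hφ f1 (ka L y) hf1 hkaLP
    obtain ⟨e1, e2, e3⟩ := cnv φ hφ (fun t => f1 t - RR p v t) (ka L y)
      (LP.sub hφ hf1 hRvLP) hkaLP
    obtain ⟨k1, k2, k3⟩ := cnv φ hφ v (ka L y) hv hkaLP
    obtain ⟨m1, _, m3, _⟩ := hDf p (cv v (ka L y)) k1
    have a1 : cv (RR p v) (ka L y) =ᵐ[volume] RR p (cv v (ka L y)) := by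
      refine uniq hφ c1 m1 fun z hz => ?_
      rw [c3 z hz.le, m3 z hz.le, k3 z hz.le, hRvFT z hz.le]
      ring
    have a2 : cv f1 (ka L y) =ᵐ[volume]
        fun t => cv (fun t => f1 t - RR p v t) (ka L y) t + cv (RR p v) (ka L y) t := by
      refine uniq hφ d1 (LP.add hφ e1 c1) fun z hz => ?_
      rw [FT_add hφ e1 c1 hz.le, d3 z hz.le, e3 z hz.le, c3 z hz.le,
        FT_sub hφ hf1 hRvLP hz.le]
      ring
    have b1 : nm φ (cv (RR p v) (ka L y)) ≤ ε / 4 := by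
      rw [nm_congr a1]
      exact havg y hy1
    have b2 : nm φ (cv (fun t => f1 t - RR p v t) (ka L y)) ≤
        (ε / (8 * (1 + S)) + ε / (8 * (1 + S))) * S := by
      refine e2.trans ?_
      refine mul_le_mul ?_ hkaS ?_ (by positivity)
      · have h1 := nm_comm (φ := φ) f1 (RR p v)
        unfold nm at h1
        rw [h1]
        exact hdist
      · exact integral_nonneg fun t => mul_nonneg (wpos hφ t).le (norm_nonneg _)
    have b3 : nm φ (cv f1 (ka L y)) ≤ (ε / (8 * (1 + S)) + ε / (8 * (1 + S))) * S + ε / 4 := by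
      rw [nm_congr a2]
      exact (nm_add hφ e1 c1).trans (add_le_add b2 b1)
    have hid : (fun t => f t - (f1 t - cv f1 (ka L y) t)) =
        fun t => ((f t - RR p v t) + (RR p v t - f1 t)) + cv f1 (ka L y) t := by
      funext t
      ring
    have b4 := nm_add hφ (LP.add hφ (LP.sub hφ hf hRvLP) (LP.sub hφ hRvLP hf1)) g1
    have b5 := nm_add hφ (LP.sub hφ hf hRvLP) (LP.sub hφ hRvLP hf1)
    have b6 : nm φ (fun t => f t - (f1 t - cv f1 (ka L y) t)) ≤ ε := by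
      rw [hid]
      have h6 : (ε / (8 * (1 + S)) + ε / (8 * (1 + S))) +
          (ε / (8 * (1 + S)) + ε / (8 * (1 + S))) * S = ε / 4 := by
        have hS2 : (1 + S) ≠ 0 := by positivity
        field_simp
        ring
      linarith
    exact b6

end

end Pool.Agent.WK4
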