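import Pool.Agent.WK4.Stmts
import Pool.Agent.WK.Kit

/-!
# XLC: exponential sums with frequencies near `p` are small functionals on `m_p`
-/

set_option autoImplicit false

namespace Pool.Agent.WK4.H25

open MeasureTheory Filter Topology Complex
open Pool.Agent.H78E Pool.Agent.WK Pool.Agent.WK2 Pool.Agent.WK3

/-- the pairing with an exponential sum bounded by `D * φ` -/
theorem pair_bound {φ : ℝ → ℝ} (hφ : IsWeight φ) {h : ℝ → ℂ} (hh : LP φ h) (S : Finset ℝ)
    (c : ℝ → ℂ) (D : ℝ) (hD : ∀ t : ℝ, ‖ES S c t‖ ≤ D * φ t) :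
    ‖∑ x ∈ S, c x * FT h (x : ℂ)‖ ≤ D * ∫ t : ℝ, φ t * ‖h t‖ := by
  have h1 : ∑ x ∈ S, c x * FT h (x : ℂ) = ∫ t, h t * ES S c (t + 0) := by
    rw [pair_ES (LP.integrable hφ hh)]
    refine Finset.sum_congr rfl fun x _ => ?_
    have h2 : expR x 0 = 1 := by
      unfold expR
      simp
    rw [h2, mul_one]
  rw [h1, ← integral_const_mul]
  refine norm_integral_le_of_norm_le (hh.1.2.const_mul D) (Eventually.of_forall fun t => ?_)
  rw [add_zero, norm_mul]
  calc ‖h t‖ * ‖ES S c t‖ ≤ ‖h t‖ * (D * φ t) := mul_le_mul_of_nonneg_left (hD t) (norm_nonneg _)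
    _ = D * (φ t * ‖h t‖) := by ring

theorem xlc (xbe : XbeStmt) (xrr : XrrStmt) : XlcStmt := by
  intro φ C0 M hφ hP hL p f hf hfp ε hε
  obtain ⟨g, F, hg, hF, hgF, hfg⟩ := xrr φ hφ hL (M + 1) p f hf hfp (ε / 2) (by positivity)
  obtain ⟨C, hC, hX⟩ := xbe φ C0 M hφ hP (M + 1)
  set N : ℝ := ∫ t : ℝ, φ t * ‖F t‖ with hN
  have hN0 : 0 ≤ N := integral_nonneg fun t => mul_nonneg (wpos hφ t).le (norm_nonneg _)
  have hCN : 0 ≤ C * N := mul_nonneg hC hN0
  refine ⟨min 1 (ε / (2 * (C * N + 1))), ?_, ?_⟩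
  · exact lt_min one_pos (by positivity)
  · intro S c B hS hB
    set ρ : ℝ := min 1 (ε / (2 * (C * N + 1))) with hρdef
    have hρ0 : 0 < ρ := lt_min one_pos (by positivity)
    have hρ1 : ρ ≤ 1 := min_le_left _ _
    have hρ2 : C * ρ * N ≤ ε / 2 := by
      have h1 : ρ ≤ ε / (2 * (C * N + 1)) := min_le_right _ _
      have h2 : ρ * (2 * (C * N + 1)) ≤ ε := by
        rwa [le_div_iff₀ (by positivity)] at h1
      nlinarith
    have hB0 : 0 ≤ B := by
      by_contra h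
      have h1 := mul_neg_of_neg_of_pos (not_le.mp h) (wpos hφ 0)
      linarith [norm_nonneg (ES S c 0), hB 0]
    have h1 : ∑ x ∈ S, c x * FT f (x : ℂ) =
        ∑ x ∈ S, c x * FT (fun t => f t - g t) (x : ℂ) +
          ∑ x ∈ S, (c x * (((x - p : ℝ)) : ℂ) ^ (M + 1)) * FT F (x : ℂ) := by
      rw [← Finset.sum_add_distrib]
      refine Finset.sum_congr rfl fun x _ => ?_
      rw [FT_sub hφ hf hg (by simp), hgF x]
      ring
    have h2 := pair_bound hφ (LP.sub hφ hf hg) S c B hB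
    have h3 : ∀ t : ℝ, ‖ES S (fun x => c x * (((x - p : ℝ)) : ℂ) ^ (M + 1)) t‖ ≤
        (C * ρ * B) * φ t := by
      intro t
      have h4 := hX p ρ S c B hρ0 hρ1 hS hB t
      have h5 : 0 < ρ ^ M := pow_pos hρ0 M
      have h6 : C * ρ ^ (M + 1) * B * φ t = ρ ^ M * ((C * ρ * B) * φ t) := by
        rw [pow_succ]; ring
      rw [h6] at h4
      exact le_of_mul_le_mul_left h4 h5
    have h4 := pair_bound hφ hF S _ _ h3
    rw [h1]
    refine (norm_add_le _ _).trans ?_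
    have h5 : B * ∫ t : ℝ, φ t * ‖f t - g t‖ ≤ B * (ε / 2) :=
      mul_le_mul_of_nonneg_left hfg.le hB0
    have h6 : C * ρ * B * N ≤ B * (ε / 2) := by
      calc C * ρ * B * N = B * (C * ρ * N) := by ring
        _ ≤ B * (ε / 2) := mul_le_mul_of_nonneg_left hρ2 hB0
    calc _ ≤ B * (ε / 2) + B * (ε / 2) := add_le_add (h2.trans h5) (h4.trans h6)
      _ = ε * B := by ring

end Pool.Agent.WK4.H25
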