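import Pool.Agent.WK4.Stmts
import Pool.Agent.WK2.Reg

/-!
# MP_7d2497_an, squad WK4: row XRG, polynomially bounded weights are regular
-/

set_option autoImplicit false

namespace Pool.Agent.WK4

open MeasureTheory Filter Topology Complex SchwartzMap
open Pool.Agent.H78E Pool.Agent.WK Pool.Agent.WK2 Pool.Agent.WK3

noncomputable section

namespace H41

theorem pow_bound (M : ℕ) (u : ℝ) : (1 + |u|) ^ M ≤ 2 ^ M * (1 + |u| ^ M) := by
  have h4 : 1 + |u| ≤ 2 * max 1 |u| := by
    have h5 := le_max_left 1 |u|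
    have h6 := le_max_right 1 |u|
    linarith
  have h7 : max 1 |u| ^ M ≤ 1 + |u| ^ M := by
    rcases max_cases 1 |u| with h | h
    · rw [h.1, one_pow]
      have : 0 ≤ |u| ^ M := by positivity
      linarith
    · rw [h.1]
      linarith
  calc (1 + |u|) ^ M ≤ (2 * max 1 |u|) ^ M := pow_le_pow_left₀ (by positivity) h4 M
    _ = 2 ^ M * max 1 |u| ^ M := mul_pow _ _ _
    _ ≤ _ := mul_le_mul_of_nonneg_left h7 (by positivity)

theorem log_small (C0 : ℝ) (M : ℕ) (hC : 0 < C0) (c : ℝ) (hc : 0 < c) (T : ℝ) :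
    ∃ t : ℝ, T ≤ t ∧ 0 ≤ t ∧ Real.log (C0 * (1 + t) ^ M) < c * Real.sqrt t := by
  have h1 : Tendsto (fun t : ℝ => (Real.log C0 + M * Real.log (1 + t)) / Real.sqrt t) atTop
      (𝓝 0) := by
    have h2 : Tendsto (fun t : ℝ => Real.log C0 / Real.sqrt t) atTop (𝓝 0) :=
      tendsto_const_nhds.div_atTop Real.tendsto_sqrt_atTop
    have h3 : Tendsto (fun t : ℝ => Real.log (1 + t) / (1 + t) ^ (1 / 2 : ℝ)) atTop (𝓝 0) := by
      have h4 : Tendsto (fun x : ℝ => Real.log x / x ^ (1 / 2 : ℝ)) atTop (𝓝 0) :=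
        (isLittleO_log_rpow_atTop (by norm_num : (0 : ℝ) < 1 / 2)).tendsto_div_nhds_zero
      exact h4.comp (tendsto_atTop_add_const_left _ _ tendsto_id)
    have h5 : ∀ᶠ t : ℝ in atTop, |M * Real.log (1 + t) / Real.sqrt t| ≤
        (2 * M) * (Real.log (1 + t) / (1 + t) ^ (1 / 2 : ℝ)) := by
      filter_upwards [eventually_ge_atTop (1 : ℝ)] with t ht
      have hl : 0 ≤ Real.log (1 + t) := Real.log_nonneg (by linarith)
      have hs : 0 < Real.sqrt t := Real.sqrt_pos.2 (by linarith)
      rw [abs_of_nonneg (by positivity), ← Real.sqrt_eq_rpow]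
      have hs2 : Real.sqrt (1 + t) ≤ 2 * Real.sqrt t := by
        rw [show (2 : ℝ) = Real.sqrt 4 by
          rw [show (4 : ℝ) = 2 ^ 2 by norm_num, Real.sqrt_sq (by norm_num)],
          ← Real.sqrt_mul (by norm_num)]
        exact Real.sqrt_le_sqrt (by linarith)
      have hs1 : 0 < Real.sqrt (1 + t) := Real.sqrt_pos.2 (by linarith)
      have h6 : 1 / Real.sqrt t ≤ 2 / Real.sqrt (1 + t) := by
        rw [div_le_div_iff₀ hs hs1]
        linarith
      calc M * Real.log (1 + t) / Real.sqrt t = (M * Real.log (1 + t)) * (1 / Real.sqrt t) := by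
            ring
        _ ≤ (M * Real.log (1 + t)) * (2 / Real.sqrt (1 + t)) :=
            mul_le_mul_of_nonneg_left h6 (by positivity)
        _ = _ := by ring
    have h6 : Tendsto (fun t : ℝ => M * Real.log (1 + t) / Real.sqrt t) atTop (𝓝 0) := by
      refine squeeze_zero_norm' h5 ?_
      have := h3.const_mul (2 * (M : ℝ))
      rwa [mul_zero] at this
    have h7 := h2.add h6
    rw [add_zero] at h7
    refine h7.congr fun t => ?_
    rw [add_div]
  obtain ⟨t, ht1, ht2⟩ := ((h1.eventually_lt_const hc).and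
    (eventually_ge_atTop (max T 1))).exists
  have ht3 : T ≤ t := (le_max_left _ _).trans ht2
  have ht4 : 1 ≤ t := (le_max_right _ _).trans ht2
  refine ⟨t, ht3, by linarith, ?_⟩
  have hs : 0 < Real.sqrt t := Real.sqrt_pos.2 (by linarith)
  rw [div_lt_iff₀ hs] at ht1
  rw [Real.log_mul hC.ne' (by positivity), Real.log_pow]
  exact ht1

end H41

theorem xrg : XrgStmt := by
  intro φ C0 M hφ hP
  have hC0 : 0 < C0 := by
    have h1 := hφ.one_le 0
    have h2 := hP 0
    rw [abs_zero, add_zero, one_pow, mul_one] at h2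
    linarith
  constructor
  · obtain ⟨b, hb1, hb2⟩ := exists_bandlimited
    refine ⟨b, fun t => C0 * (1 + |t|) ^ M, 2 * Real.pi, ?_, ?_,
      b.continuous.aestronglyMeasurable, ?_, hb1, hb2⟩
    · exact (continuous_const.mul ((continuous_const.add continuous_abs).pow M)).measurable
    · intro s u hsu
      refine (hP s).trans ?_
      have : (1 + |s|) ^ M ≤ (1 + |u|) ^ M := pow_le_pow_left₀ (by positivity) (by linarith) M
      exact mul_le_mul_of_nonneg_left this hC0.le
    · have h1 : Integrable (fun u : ℝ => (C0 * 2 ^ M) * (‖b u‖ + ‖u‖ ^ M * ‖b u‖)) volume :=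
        (b.integrable.norm.add (b.integrable_pow_mul volume M)).const_mul _
      refine h1.mono' ((continuous_const.mul ((continuous_const.add continuous_abs).pow M)).mul
        b.continuous.norm).aestronglyMeasurable (Eventually.of_forall fun u => ?_)
      rw [Real.norm_of_nonneg (by positivity)]
      calc C0 * (1 + |u|) ^ M * ‖b u‖ ≤ C0 * (2 ^ M * (1 + |u| ^ M)) * ‖b u‖ := by
            gcongr
            exact H41.pow_bound M u
        _ = _ := by
            rw [Real.norm_eq_abs]
            ring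
  · intro c hc T
    obtain ⟨t, ht1, ht0, ht2⟩ := H41.log_small C0 M hC0 c hc T
    refine ⟨t, ht1, lt_of_le_of_lt ?_ ht2⟩
    refine Real.log_le_log (lt_of_lt_of_le one_pos (hφ.one_le _)) ?_
    have := hP (-t)
    rwa [abs_neg, abs_of_nonneg ht0] at this

end

end Pool.Agent.WK4
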