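import Pool.Agent.WK4.Stmts
import Pool.Agent.WK.Kit
import Pool.Agent.WK.Av
import Pool.Agent.WK.De0
import Pool.Agent.WK.Fac

/-!
# MP_7d2497_an, squad WK4, row XRR (helper48): functions with a zero of high order are dense
-/

set_option autoImplicit false

namespace Pool.Agent.WK4

open MeasureTheory Filter Topology Complex
open Pool.Agent.H78E Pool.Agent.WK Pool.Agent.WK2 Pool.Agent.WK3

noncomputable section

namespace H48R

/-- `RR p` maps the functions with transform zero at `p` onto a dense set of such functions -/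
theorem rr_dense (av : AvStmt) (de0 : De0Stmt) (fac : FacStmt) (lew : LewStmt)
    {φ : ℝ → ℝ} (hφ : IsWeight φ) (hl : ¬ Lin φ) (p : ℝ) (f : ℝ → ℂ) (hf : LP φ f)
    (hfp : FT f (p : ℂ) = 0) (ε : ℝ) (hε : 0 < ε) :
    ∃ f1 : ℝ → ℂ, LP φ f1 ∧ FT f1 (p : ℂ) = 0 ∧ ∫ t : ℝ, φ t * ‖f t - RR p f1 t‖ < ε := by
  obtain ⟨N, c, hN⟩ := de0 φ hφ p f hf hfp (ε / 2) (by positivity)
  obtain ⟨D', -, hfac⟩ := fac φ hφ
  have hadd : ∀ f : ℝ → ℂ, LP φ f → ∀ g : ℝ → ℂ, LP φ g → ∀ a : ℂ, ∀ t : ℝ,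
      RR p (fun t => f t - a * g t) t = RR p f t - a * RR p g t := fun f hf g hg a t =>
    (hfac p f hf).2.2.2 g hg a t
  have hq : ∀ n : ℕ, LP φ (q ((n : ℝ) + 3 / 2)) := fun n =>
    Pool.Agent.WK.H17.Nc.lp hφ (Pool.Agent.WK.H17.nc_q (by
      have : (0 : ℝ) ≤ n := Nat.cast_nonneg n
      linarith))
  set w : ℝ → ℂ := fun t => (fun _ : ℝ => (0 : ℂ)) t -
    ∑ n ∈ Finset.range N, (-c n) * q ((n : ℝ) + 3 / 2) t with hw
  have hwL : LP φ w := Pool.Agent.WK.H17.lp_sub1 hφ Pool.Agent.WK.H17.lp_zero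
    (Pool.Agent.WK.H17.lp_sum hφ hq (fun n => -c n) N)
  have hRw : ∀ t, RR p w t = ∑ n ∈ Finset.range N, c n * RR p (q ((n : ℝ) + 3 / 2)) t := by
    intro t
    have h1 := Pool.Agent.WK.H17.rr_sum hφ p hadd Pool.Agent.WK.H17.lp_zero hq
      (fun n => -c n) N t
    have h2 : RR p (fun _ : ℝ => (0 : ℂ)) t = 0 := by simp [RR, cv]
    rw [h2, zero_sub, ← Finset.sum_neg_distrib] at h1
    refine h1.trans (Finset.sum_congr rfl fun n _ => ?_)
    ring
  obtain ⟨D, hD0, hD⟩ := av φ hφ p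
  set V : ℝ := ∫ t : ℝ, φ t * ‖w t‖ with hV
  have hV0 : 0 ≤ V := integral_nonneg fun t =>
    mul_nonneg (Pool.Agent.WK.H17.w0 hφ t) (norm_nonneg _)
  set C : ℝ := 4 * ((D + 1) * (V + 1)) / ε with hC
  have hCpos : 0 < C := by positivity
  obtain ⟨L, hL0, hLC⟩ : ∃ t : ℝ, 0 ≤ t ∧ C * φ t < t := by
    by_contra hn
    push Not at hn
    exact hl ⟨C, hn⟩
  have hφ1 : 1 ≤ φ L := hφ.one_le L
  have hL : 0 < L := lt_of_le_of_lt (by positivity) hLC
  obtain ⟨S, -, hS⟩ := (lew φ hφ).2.1 L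
  obtain ⟨k1, k2, -, k4⟩ := hD L p S w hL
    (fun t ht ht' => hS t (by rw [abs_of_nonneg ht]; exact ht')) hwL
  have hx : (1 + φ L) / L < 2 / C := by
    rw [div_lt_div_iff₀ hL hCpos]
    nlinarith
  have hx0 : 0 ≤ (1 + φ L) / L := by positivity
  have hx2 : 2 / C = ε / (2 * ((D + 1) * (V + 1))) := by
    rw [hC]
    field_simp
    ring
  have k5 : ∫ t : ℝ, φ t * ‖RR p (cv w (ka L p)) t‖ < ε / 2 := by
    refine lt_of_le_of_lt k4 ?_
    rw [sub_self, abs_zero, zero_mul, add_zero]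
    have h1 : D * ((1 + φ L) / L) * V ≤ ((D + 1) * (V + 1)) * ((1 + φ L) / L) := by
      have : D * V ≤ (D + 1) * (V + 1) := by nlinarith
      nlinarith [mul_le_mul_of_nonneg_right this hx0]
    have h2 : ((D + 1) * (V + 1)) * ((1 + φ L) / L) < ((D + 1) * (V + 1)) * (2 / C) :=
      mul_lt_mul_of_pos_left hx (by positivity)
    have h3 : ((D + 1) * (V + 1)) * (2 / C) = ε / 2 := by
      rw [hx2]
      field_simp
    linarith
  set u : ℝ → ℂ := cv w (ka L p) with hu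
  set f1 : ℝ → ℂ := fun t => w t - u t with hf1
  have hf1L : LP φ f1 := Pool.Agent.WK.H17.lp_sub1 hφ hwL k1
  have hRf1 : ∀ t, RR p f1 t = RR p w t - RR p u t := by
    intro t
    have h := hadd w hwL u k1 1 t
    simp only [one_mul] at h
    exact h
  refine ⟨f1, hf1L, ?_, ?_⟩
  · have h := FT_sub hφ hwL k1 (z := (p : ℂ)) (by simp)
    rw [hf1, h, k2, sub_self]
  · have h := Pool.Agent.WK.H17.tri hφ hf (hfac p w hwL).1 (hfac p f1 hf1L).1
    have h1 : ∀ t, RR p w t - RR p f1 t = RR p u t := by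
      intro t
      rw [hRf1 t]
      ring
    have h2 : ∫ t : ℝ, φ t * ‖RR p w t - RR p f1 t‖ = ∫ t : ℝ, φ t * ‖RR p u t‖ := by
      simp_rw [h1]
    have h3 : ∫ t : ℝ, φ t * ‖f t - RR p w t‖ < ε / 2 := by
      simp_rw [hRw]
      exact hN
    rw [h2] at h
    linarith

end H48R

open H48R

/-- XRR -/
theorem xrr (av : AvStmt) (de0 : De0Stmt) (fac : FacStmt) (lew : LewStmt) (cnv : CnvStmt) :
    XrrStmt := by
  intro φ hφ hl m p
  obtain ⟨D, hD0, hfac⟩ := fac φ hφ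
  have hkx : LP φ (kx p) := Pool.Agent.WK.H60V.kx_LP lew hφ p
  induction m with
  | zero =>
    intro f hf _ ε hε
    refine ⟨f, f, hf, hf, fun x => by rw [pow_zero, one_mul], ?_⟩
    simpa using hε
  | succ m ih =>
    intro f hf hfp ε hε
    obtain ⟨f1, hf1, hf1p, hf1e⟩ := rr_dense av de0 fac lew hφ hl p f hf hfp (ε / 2)
      (by positivity)
    obtain ⟨g, F, hg, hF, hgF, hge⟩ := ih f1 hf1 hf1p (ε / (2 * (D + 1))) (by positivity)
    obtain ⟨c1, -, c3⟩ := cnv φ hφ F (kx p) hF hkx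
    refine ⟨RR p g, fun t => Complex.I * cv F (kx p) t, (hfac p g hg).1, c1.smul Complex.I,
      fun x => ?_, ?_⟩
    · have hx : ((x : ℂ)).im ≤ 0 := by simp
      rw [(hfac p g hg).2.2.1 (x : ℂ) hx, hgF x, FT_smul, c3 (x : ℂ) hx,
        Pool.Agent.WK.H39.FT_kx p hx]
      have h1 : ((x - p : ℝ) : ℂ) = (x : ℂ) - (p : ℂ) := by push_cast; ring
      rw [h1]
      have h2 : (x : ℂ) - (p : ℂ) - Complex.I ≠ 0 := by
        intro h
        have := congrArg Complex.im h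
        simp at this
      have h3 : (1 : ℂ) + Complex.I * ((x : ℂ) - (p : ℂ)) =
          Complex.I * ((x : ℂ) - (p : ℂ) - Complex.I) := by
        rw [mul_sub Complex.I ((x : ℂ) - (p : ℂ)) Complex.I, Complex.I_mul_I]
        ring
      rw [h3, pow_succ]
      have h4 := Complex.I_ne_zero
      field_simp
    · have h := Pool.Agent.WK.H17.tri hφ hf (hfac p f1 hf1).1 (hfac p g hg).1
      have h1 : ∫ t : ℝ, φ t * ‖RR p f1 t - RR p g t‖ ≤
          D * ∫ t : ℝ, φ t * ‖f1 t - g t‖ := by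
        have h2 := (hfac p (fun t => f1 t - g t) (Pool.Agent.WK.H17.lp_sub1 hφ hf1 hg)).2.1
        have h3 : ∀ t, RR p (fun t => f1 t - g t) t = RR p f1 t - RR p g t := by
          intro t
          have h4 := (hfac p f1 hf1).2.2.2 g hg 1 t
          simp only [one_mul] at h4
          exact h4
        simp_rw [h3] at h2
        exact h2
      have h5 : D * ∫ t : ℝ, φ t * ‖f1 t - g t‖ ≤ D * (ε / (2 * (D + 1))) :=
        mul_le_mul_of_nonneg_left hge.le hD0
      have h6 : D * (ε / (2 * (D + 1))) < ε / 2 := by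
        rw [mul_div_assoc', div_lt_div_iff₀ (by positivity) (by norm_num)]
        nlinarith
      linarith

end

end Pool.Agent.WK4
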