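import Pool.Agent.WK4.Stmts
import Pool.Agent.WK3.Fin3
import Pool.Agent.Helper67_WK4.Proj

/-!
# MP_7d2497_an, squad WK4, row XSU: sufficiency
-/

set_option autoImplicit false

namespace Pool.Agent.WK4

open MeasureTheory Filter Topology Complex
open Pool.Agent.H78E Pool.Agent.WK Pool.Agent.WK2 Pool.Agent.WK3

noncomputable section

/-- Row XSU. -/
theorem xsu : XsuStmt := by
  intro φ hφ hQ _ _ L hcnt hnear hfar
  refine (Pool.Agent.WK3.main3 φ hφ L (Or.inr hcnt)).2 (Or.inl hQ) ?_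
  intro K hKL hK
  obtain ⟨hne, g, hg, hs, hgK⟩ := hK
  have hSpc : SpcStmt := spc
  have hcl : IsClosed K := by
    have h1 := (hSpc φ hφ g hg).2
    have h2 : K = (fun x : ℝ => (x : ℂ)) ⁻¹' SpecPos φ g := by
      rw [hgK]
      ext x
      constructor
      · intro hx
        exact ⟨x, hx, rfl⟩
      · rintro ⟨y, hy, hyx⟩
        have : y = x := Complex.ofReal_injective hyx
        rwa [← this]
    rw [h2]
    exact h1.preimage Complex.continuous_ofReal
  have hnice : Nice φ K := nsp hSpc φ hφ g K hg hs hgK hne (hcnt K hKL hcl)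
  refine x4 φ hφ K hnice ?_ ?_
  · intro p hp
    obtain ⟨ρ, C, hρ, hC⟩ := hnear p (hKL hp)
    refine ⟨ρ, C, hρ, ineq_mono ?_ hC⟩
    intro x hx
    exact ⟨hKL hx.1, hx.2.le⟩
  · obtain ⟨R, C, hC⟩ := hfar
    refine ⟨R, C, ineq_mono ?_ hC⟩
    intro x hx
    exact ⟨hKL hx.1, hx.2⟩

end

end Pool.Agent.WK4
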