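import Pool.Agent.WK4.Stmts

/-!
# MP_7d2497_an, squad WK4: row XTE
-/

set_option autoImplicit false

namespace Pool.Agent.WK4

open MeasureTheory Filter Topology Complex
open Pool.Agent.H78E Pool.Agent.WK Pool.Agent.WK2 Pool.Agent.WK3

/-- row XTE -/
theorem xte : XteStmt := by
  intro φ _ hqc hunb
  obtain ⟨C, hC, h⟩ := hqc
  rw [tendsto_atTop]
  intro A
  have h1 : ∃ t : ℝ, 0 ≤ t ∧ max (C * A) (φ 0) < φ t := by
    by_contra hcon
    push Not at hcon
    exact hunb ⟨_, hcon⟩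
  obtain ⟨t₀, ht₀, ht₁⟩ := h1
  have ht₂ : 0 < t₀ := by
    rcases ht₀.lt_or_eq with h2 | h2
    · exact h2
    · rw [← h2] at ht₁
      exact absurd (le_max_right (C * A) (φ 0)) (not_le.2 ht₁)
  filter_upwards [eventually_ge_atTop t₀] with t ht
  have h3 := (h t₀ t ht₂ ht).1
  have h4 : C * A < C * φ t := ((le_max_left _ _).trans_lt ht₁).trans_le h3
  exact (lt_of_mul_lt_mul_left h4 hC.le).le

end Pool.Agent.WK4
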